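import Pool.Agent.H52.Van.Pigeon

/-! Choice of parameters. -/

namespace Pool.Agent.H52.Van

open Finset Polynomial

lemma choose_le_exp {N : ℕ} {x : ℝ} (hN : 0 < N) (hx : x = Real.log N) (j : ℕ) :
    (N.choose j : ℝ) ≤ Real.exp (x * j) := by
  have hNR : (0 : ℝ) < N := by exact_mod_cast hN
  have h1 : (N.choose j : ℝ) ≤ (N : ℝ) ^ j / (j.factorial : ℝ) := Nat.choose_le_pow_div j N
  have h2 : (N : ℝ) ^ j / (j.factorial : ℝ) ≤ (N : ℝ) ^ j :=
    div_le_self (by positivity) (by exact_mod_cast Nat.one_le_iff_ne_zero.2 (Nat.factorial_ne_zero j))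
  have h3 : Real.exp (x * j) = (N : ℝ) ^ j := by
    rw [mul_comm, Real.exp_nat_mul, hx, Real.exp_log hNR]
  rw [h3]
  exact h1.trans h2

lemma exp_add_one_le {Q : ℝ} (hQ : 0 ≤ Q) : Real.exp Q + 1 ≤ Real.exp (Q + 1) := by
  rw [Real.exp_add]
  have h1 : 1 ≤ Real.exp Q := Real.one_le_exp hQ
  have h2 : 2 ≤ Real.exp 1 := by
    have := Real.add_one_le_exp (1 : ℝ)
    linarith
  nlinarith

/-- Standing assumptions on the parameters. -/
structure Par (N k : ℕ) (x w : ℝ) : Prop where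
  hN : 0 < N
  hx : x = Real.log N
  hw : w = Real.log x
  h1 : 20 ≤ w
  h2 : √(2 * x) * (80 + 80 * w) * w ≤ x
  h4 : 102400 * x ^ 10 ≤ Real.exp (x / 3)
  k1 : 1600 * (k : ℝ) ^ 2 * x ≤ N * w
  k2 : N * w ≤ 6400 * (k : ℝ) ^ 2 * x

namespace Par

variable {N k : ℕ} {x w : ℝ}

lemma xpos (p : Par N k x w) : 0 < x := by
  by_contra h
  have h0 : x ≤ 0 := not_lt.1 h
  have hN1 : (1 : ℝ) ≤ N := by exact_mod_cast p.hN
  have h3 : 0 ≤ x := by rw [p.hx]; exact Real.log_nonneg hN1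
  have h4 : x = 0 := le_antisymm h0 h3
  have h5 := p.hw
  rw [h4, Real.log_zero] at h5
  have := p.h1
  linarith

lemma xbig (p : Par N k x w) : 25600 ≤ x := by
  have h1 : Real.exp 20 ≤ x := by
    rw [← Real.le_log_iff_exp_le p.xpos, ← p.hw]; exact p.h1
  have h2 : (2 : ℝ) ≤ Real.exp 1 := by
    have := Real.add_one_le_exp (1 : ℝ)
    linarith
  have h3 : Real.exp 20 = Real.exp 1 ^ 20 := by
    rw [← Real.exp_nat_mul]; norm_num
  have h4 : (2 : ℝ) ^ 20 ≤ Real.exp 1 ^ 20 := pow_le_pow_left₀ (by norm_num) h2 20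
  rw [← h3] at h4
  norm_num at h4
  linarith

lemma wle (p : Par N k x w) : w ≤ x := by
  rw [p.hw]
  have := Real.log_le_sub_one_of_pos p.xpos
  linarith

lemma Nexp (p : Par N k x w) : (N : ℝ) = Real.exp x := by
  rw [p.hx, Real.exp_log]
  exact_mod_cast p.hN

lemma Ncube (p : Par N k x w) : (N : ℝ) = Real.exp (x / 3) ^ 3 := by
  rw [p.Nexp, ← Real.exp_nat_mul]
  congr 1
  push_cast
  ring

lemma klow (p : Par N k x w) : 4 * x ^ 4 * Real.exp (x / 3) ≤ k := by
  set E := Real.exp (x / 3) with hE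
  have hE0 : 0 < E := Real.exp_pos _
  have hx := p.xpos
  have hxb := p.xbig
  have hw1 : 1 ≤ w := by linarith [p.h1]
  have h3 := p.k2
  rw [p.Ncube] at h3
  have h4 : E ^ 3 ≤ E ^ 3 * w := le_mul_of_one_le_right (by positivity) hw1
  have h5 : E ^ 2 * (102400 * x ^ 10) ≤ E ^ 3 := by
    calc E ^ 2 * (102400 * x ^ 10) ≤ E ^ 2 * E := mul_le_mul_of_nonneg_left p.h4 (by positivity)
      _ = E ^ 3 := by ring
  have h6 : 6400 * x * (16 * x ^ 9 * E ^ 2) ≤ 6400 * x * (k : ℝ) ^ 2 := by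
    calc 6400 * x * (16 * x ^ 9 * E ^ 2) = E ^ 2 * (102400 * x ^ 10) := by ring
      _ ≤ E ^ 3 * w := h5.trans h4
      _ ≤ 6400 * (k : ℝ) ^ 2 * x := h3
      _ = 6400 * x * (k : ℝ) ^ 2 := by ring
  have h7 : 16 * x ^ 9 * E ^ 2 ≤ (k : ℝ) ^ 2 := le_of_mul_le_mul_left h6 (by positivity)
  have h8 : (4 * x ^ 4 * E) ^ 2 ≤ 16 * x ^ 9 * E ^ 2 := by
    have h9 : x ^ 8 ≤ x ^ 9 := pow_le_pow_right₀ (by linarith) (by norm_num)
    calc (4 * x ^ 4 * E) ^ 2 = 16 * x ^ 8 * E ^ 2 := by ring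
      _ ≤ 16 * x ^ 9 * E ^ 2 := by gcongr
  exact le_of_sq_le_sq (h8.trans h7) (Nat.cast_nonneg _)
where
  le_of_sq_le_sq {a b : ℝ} (h : a ^ 2 ≤ b ^ 2) (hb : 0 ≤ b) : a ≤ b :=
    abs_le_of_sq_le_sq' h hb |>.2

lemma ksq (p : Par N k x w) : (k : ℝ) ^ 2 ≤ N := by
  have h1 := p.k1
  have h2 := p.wle
  have hN : (0 : ℝ) ≤ N := Nat.cast_nonneg _
  have h3 : (N : ℝ) * w ≤ N * x := mul_le_mul_of_nonneg_left h2 hN
  have h4 : x * (1600 * (k : ℝ) ^ 2) ≤ x * N := by linarith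
  have h5 := le_of_mul_le_mul_left h4 p.xpos
  have h6 : (0 : ℝ) ≤ (k : ℝ) ^ 2 := by positivity
  linarith

lemma kx (p : Par N k x w) : x ≤ k := by
  have h1 := p.klow
  have hx := p.xbig
  have h2 : 1 ≤ Real.exp (x / 3) := Real.one_le_exp (by linarith)
  have h3 : x ≤ x ^ 4 := by
    calc x = x ^ 1 := (pow_one x).symm
      _ ≤ x ^ 4 := pow_le_pow_right₀ (by linarith) (by norm_num)
  have h4 : x ^ 4 ≤ 4 * x ^ 4 * Real.exp (x / 3) := by
    have : 0 ≤ x ^ 4 := by positivity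
    nlinarith
  linarith

lemma per_t_small (p : Par N k x w) {t : ℕ} (ht : (t : ℝ) * x < k) {F : Finset (Finset ℕ)}
    (hF : F ⊆ (range N).powerset) :
    ((F.image (mom t)).card : ℝ) ≤ Real.exp (260 * k * x / w) := by
  have h1 := values_trivial hF t
  have h2 := choose_le_exp p.hN p.hx (t + 1)
  have hx := p.xpos
  have hw0 : 0 < w := by linarith [p.h1]
  have h3 := exp_add_one_le (Q := x * ((t + 1 : ℕ) : ℝ)) (by positivity)
  refine h1.trans ((by linarith : _ ≤ Real.exp (x * ((t + 1 : ℕ) : ℝ) + 1)).trans ?_)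
  apply Real.exp_le_exp.2
  push_cast
  have hkx := p.kx
  have hk1 : (1 : ℝ) ≤ k := by linarith [p.xbig]
  have h4 : x * ((t : ℝ) + 1) + 1 ≤ 3 * k := by nlinarith
  have h5 : 3 * (k : ℝ) ≤ 260 * k * x / w := by
    rw [le_div_iff₀ hw0]
    have := p.wle
    nlinarith
  linarith

lemma per_t_large (p : Par N k x w) {t : ℕ} (htk : t < k) (ht : (k : ℝ) ≤ t * x)
    {F : Finset (Finset ℕ)} (hF : F ⊆ (range N).powerset)
    (hm : ∀ A ∈ F, ∀ B ∈ F, ∀ s < t, mom s A = mom s B) :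
    ((F.image (mom t)).card : ℝ) ≤ Real.exp (260 * k * x / w) := by
  have hx := p.xpos
  have hxb := p.xbig
  have hw20 := p.h1
  have hwx := p.wle
  have hw0 : 0 < w := by linarith
  set E := Real.exp (x / 3) with hE
  have hE0 : 0 < E := Real.exp_pos _
  have hE1 : 1 ≤ E := Real.one_le_exp (by linarith)
  have hkl := p.klow
  have hksq := p.ksq
  have hkx := p.kx
  have htkR : (t : ℝ) ≤ k := by exact_mod_cast htk.le
  have htlow : 4 * x ^ 3 * E ≤ t := by
    have h1 : x * (4 * x ^ 3 * E) ≤ x * t := by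
      calc x * (4 * x ^ 3 * E) = 4 * x ^ 4 * E := by ring
        _ ≤ (k : ℝ) := hkl
        _ ≤ x * t := by linarith
    exact le_of_mul_le_mul_left h1 hx
  have hx3 : 1 ≤ x ^ 3 := one_le_pow₀ (by linarith)
  have htR : (0 : ℝ) < t := lt_of_lt_of_le (by positivity) htlow
  have ht0 : 0 < t := by exact_mod_cast htR
  -- the cut-off
  set M := ⌊(t : ℝ) / (2 * x)⌋₊ with hMdef
  have hM1 : (M : ℝ) ≤ t / (2 * x) := Nat.floor_le (by positivity)
  have hM2 : (t : ℝ) / (2 * x) < M + 1 := Nat.lt_floor_add_one _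
  have hM3 : 2 * x ^ 2 * E ≤ t / (2 * x) := by
    rw [le_div_iff₀ (by positivity)]
    calc 2 * x ^ 2 * E * (2 * x) = 4 * x ^ 3 * E := by ring
      _ ≤ (t : ℝ) := htlow
  have hx2 : 1 ≤ x ^ 2 := one_le_pow₀ (by linarith)
  have hxE : 1 ≤ x ^ 2 * E := one_le_mul_of_one_le_of_one_le hx2 hE1
  have hM4 : (t : ℝ) / (4 * x) ≤ M := by
    have h1 : (t : ℝ) / (4 * x) = t / (2 * x) / 2 := by field_simp; norm_num
    rw [h1]
    linarith
  have hME : E ≤ M := by
    have h1 : E ≤ x ^ 2 * E := le_mul_of_one_le_left hE0.le hx2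
    linarith
  have hE2 : 2 ≤ E := by
    have h1 := p.h4
    have h2 : 1 ≤ x ^ 10 := one_le_pow₀ (by linarith)
    linarith
  have hMR : (0 : ℝ) < M := by linarith
  have hM2' : 2 ≤ M := by
    have : (2 : ℝ) ≤ M := by linarith
    exact_mod_cast this
  have hlogM : x / 3 ≤ Real.log M := by
    have h1 := Real.log_le_log hE0 hME
    rwa [hE, Real.log_exp] at h1
  -- exponents
  set l := Nat.log 2 M with hl
  set J := Nat.log 2 l with hJ
  set T := J / 4 with hT
  have hl0 : 0 < l := Nat.log_pos (by norm_num) hM2'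
  have hpl : 2 ^ l ≤ M := Nat.pow_log_le_self 2 (by omega)
  have hpJ : 2 ^ J ≤ l := Nat.pow_log_le_self 2 (by omega)
  have hMl : M < 2 ^ (l + 1) := Nat.lt_pow_succ_log_self (by norm_num) M
  have hlJ : l < 2 ^ (J + 1) := Nat.lt_pow_succ_log_self (by norm_num) l
  have hcM : 2 ^ (2 ^ J) ≤ M := (Nat.pow_le_pow_right (by norm_num) hpJ).trans hpl
  have hcM' : M < 2 ^ (2 ^ (J + 1)) :=
    lt_of_lt_of_le hMl (Nat.pow_le_pow_right (by norm_num) hlJ)
  have hTJ : T ≤ J := Nat.div_le_self _ _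
  have hl2a := Real.log_two_gt_d9
  have hl2b := Real.log_two_lt_d9
  have hlogMJ : Real.log M ≤ 2 ^ (J + 1) * Real.log 2 := by
    have h3 : (M : ℝ) ≤ 2 ^ (2 ^ (J + 1)) := by exact_mod_cast hcM'.le
    have h4 := Real.log_le_log hMR h3
    rw [Real.log_pow] at h4
    exact_mod_cast h4
  have hlogMJ' : 2 ^ J * Real.log 2 ≤ Real.log M := by
    have h3 : (2 : ℝ) ^ (2 ^ J) ≤ M := by exact_mod_cast hcM
    have h4 := Real.log_le_log (by positivity) h3
    rw [Real.log_pow] at h4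
    exact_mod_cast h4
  have hTw : w / 4 ≤ T := by
    have h1 : x ≤ 2 ^ (J + 3) := by
      have h2 : (2 : ℝ) ^ (J + 1) * Real.log 2 ≤ 2 ^ (J + 1) := by
        have : (0 : ℝ) < 2 ^ (J + 1) := by positivity
        nlinarith
      have h3 : (2 : ℝ) ^ (J + 3) = 4 * 2 ^ (J + 1) := by rw [pow_add, pow_add]; ring
      rw [h3]
      linarith
    have h2 := Real.log_le_log hx h1
    rw [Real.log_pow, ← p.hw] at h2
    push_cast at h2
    have h3 : (J : ℝ) ≤ 4 * T + 3 := by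
      have : J ≤ 4 * T + 3 := by omega
      exact_mod_cast this
    have h4 : ((J : ℝ) + 3) * Real.log 2 ≤ ((J : ℝ) + 3) * 0.6931471808 :=
      mul_le_mul_of_nonneg_left hl2b.le (by positivity)
    linarith
  have hTR : (0 : ℝ) < T := by linarith
  have hT0 : 0 < T := by exact_mod_cast hTR
  -- hypotheses of the gap lemma
  have hMt : (M : ℝ) * (1 + Real.log N) ≤ t := by
    rw [← p.hx]
    calc (M : ℝ) * (1 + x) ≤ t / (2 * x) * (1 + x) :=
          mul_le_mul_of_nonneg_right hM1 (by linarith)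
      _ ≤ t / (2 * x) * (2 * x) := mul_le_mul_of_nonneg_left (by linarith) (by positivity)
      _ = t := by field_simp
  have hMt' : (M : ℝ) ≤ t := by
    have h1 : 1 + Real.log N = 1 + x := by rw [p.hx]
    rw [h1] at hMt
    nlinarith
  have hNtR : (t : ℝ) * M ≤ N := by
    calc (t : ℝ) * M ≤ t * t := mul_le_mul_of_nonneg_left hMt' htR.le
      _ ≤ (k : ℝ) ^ 2 := by nlinarith
      _ ≤ N := hksq
  have hNt : t * M ≤ N := by exact_mod_cast hNtR
  have hval := values_gap hF hm ht0 hcM hcM' hT0 hTJ hMt hNt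
  rw [← p.hx] at hval
  set lt := Real.log t with hlt
  set lM := Real.log M with hlM
  -- D is small
  have hD : x - lt - lM ≤ 5 * w := by
    have h1 : (N : ℝ) ≤ x ^ 5 * (t * M) := by
      have h2 : (k : ℝ) ^ 2 ≤ (t * x) ^ 2 := pow_le_pow_left₀ (Nat.cast_nonneg _) ht 2
      have h3 : (t : ℝ) ^ 2 ≤ 4 * x * (t * M) := by
        rw [div_le_iff₀ (by positivity)] at hM4
        nlinarith
      have h4 : (N : ℝ) ≤ N * w := le_mul_of_one_le_right (Nat.cast_nonneg _) (by linarith)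
      calc (N : ℝ) ≤ N * w := h4
        _ ≤ 6400 * (k : ℝ) ^ 2 * x := p.k2
        _ ≤ 6400 * (t * x) ^ 2 * x := by gcongr
        _ = 6400 * x ^ 3 * (t : ℝ) ^ 2 := by ring
        _ ≤ 6400 * x ^ 3 * (4 * x * (t * M)) := by gcongr
        _ = 25600 * (x ^ 4 * (t * M)) := by ring
        _ ≤ x * (x ^ 4 * (t * M)) := by gcongr
        _ = x ^ 5 * (t * M) := by ring
    have hNR : (0 : ℝ) < N := by exact_mod_cast p.hN
    have h2 := Real.log_le_log hNR h1
    rw [Real.log_mul (by positivity) (by positivity), Real.log_mul htR.ne' hMR.ne',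
      Real.log_pow, ← p.hx, ← p.hw] at h2
    push_cast at h2
    linarith
  have hlMx : lM ≤ x / 2 := by
    have h1 : (M : ℝ) ^ 2 ≤ N := by
      calc (M : ℝ) ^ 2 = M * M := sq _
        _ ≤ t * M := mul_le_mul_of_nonneg_right hMt' hMR.le
        _ ≤ N := hNtR
    have h2 := Real.log_le_log (by positivity) h1
    rw [Real.log_pow, ← p.hx] at h2
    push_cast at h2
    linarith
  have hlt0 : 0 ≤ lt := Real.log_nonneg (by exact_mod_cast ht0)
  -- powers of two
  set v : ℝ := 2 ^ T with hv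
  have hv1 : 1 ≤ v := one_le_pow₀ (by norm_num)
  have hv4 : v ^ 4 ≤ 2 * x := by
    have h1 : v ^ 4 = 2 ^ (T * 4) := by rw [hv, ← pow_mul]
    have h2 : (2 : ℝ) ^ (T * 4) ≤ 2 ^ J := pow_le_pow_right₀ (by norm_num) (by omega)
    have h3 : (0 : ℝ) < 2 ^ J := by positivity
    have h4 : 2 ^ J * Real.log 2 ≤ x / 2 := by linarith
    rw [h1]
    nlinarith
  have hs0 : 0 ≤ √(2 * x) := Real.sqrt_nonneg _
  have hvs : v ^ 2 ≤ √(2 * x) := by
    apply Real.le_sqrt_of_sq_le
    calc (v ^ 2) ^ 2 = v ^ 4 := by ring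
      _ ≤ 2 * x := hv4
  have hvs1 : v ≤ √(2 * x) := by nlinarith
  have h2T : (2 : ℝ) ^ (T + 1) = 2 * v := by rw [hv, pow_succ]; ring
  rw [h2T] at hval
  have hrem : 16 * v * (3 + x - lt - lM + 2 * v) ≤ x / w := by
    rw [le_div_iff₀ hw0]
    have h1 : 16 * v * (3 + x - lt - lM + 2 * v) ≤ √(2 * x) * (80 + 80 * w) := by
      have h2 : 16 * v * (3 + x - lt - lM) ≤ 16 * √(2 * x) * (3 + 5 * w) := by
        have h3 : 16 * v * (3 + x - lt - lM) ≤ 16 * v * (3 + 5 * w) := by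
          apply mul_le_mul_of_nonneg_left _ (by positivity)
          linarith
        have h4 : 16 * v * (3 + 5 * w) ≤ 16 * √(2 * x) * (3 + 5 * w) := by
          apply mul_le_mul_of_nonneg_right _ (by linarith)
          linarith
        linarith
      nlinarith
    calc 16 * v * (3 + x - lt - lM + 2 * v) * w ≤ √(2 * x) * (80 + 80 * w) * w :=
          mul_le_mul_of_nonneg_right h1 hw0.le
      _ ≤ x := p.h2
  have hen : 128 * lM / T ≤ 256 * (x / w) := by
    rw [div_le_iff₀ hTR]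
    have h1 : 64 * x ≤ 256 * (x / w) * T := by
      calc 64 * x = 256 * (x / w) * (w / 4) := by field_simp; norm_num
        _ ≤ 256 * (x / w) * T := mul_le_mul_of_nonneg_left hTw (by positivity)
    linarith
  have h5w : 5 * w + 3 ≤ x / w := by
    rw [le_div_iff₀ hw0]
    have h1 := p.h2
    have h2 : 1 ≤ √(2 * x) := by
      apply Real.le_sqrt_of_sq_le
      linarith
    have h3 : (80 + 80 * w) * w ≤ √(2 * x) * (80 + 80 * w) * w := by
      rw [mul_assoc]
      exact le_mul_of_one_le_left (by positivity) h2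
    nlinarith
  -- size of the binomial coefficient
  have htN : t + 1 ≤ N := by
    have h1 : (k : ℝ) ≤ N := by nlinarith
    have h2 : k ≤ N := by exact_mod_cast h1
    omega
  have hch : 0 < N.choose (t + 1) := Nat.choose_pos htN
  have hlc := log_choose_le (Nat.succ_pos t) hch
  rw [← p.hx] at hlc
  push_cast at hlc
  have hlt1 : lt ≤ Real.log ((t : ℝ) + 1) := Real.log_le_log htR (by linarith)
  have hchR : (0 : ℝ) < (N.choose (t + 1) : ℝ) := by exact_mod_cast hch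
  have hlc2 : Real.log (N.choose (t + 1)) ≤ ((t : ℝ) + 1) * (1 + x - lt) := by
    refine hlc.trans ?_
    apply mul_le_mul_of_nonneg_left _ (by positivity)
    linarith
  set Yv := lM - 2 - 128 * lM / T - 16 * v * (3 + x - lt - lM + 2 * v) with hYv
  have hY : lM - 2 - 257 * (x / w) ≤ Yv := by rw [hYv]; linarith
  have hQ : (N.choose (t + 1) : ℝ) / Real.exp (t * Yv)
      ≤ Real.exp (t * (258 * (x / w)) + 1 + x) := by
    rw [div_le_iff₀ (Real.exp_pos _), ← Real.exp_add, ← Real.log_le_iff_le_exp hchR]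
    refine hlc2.trans ?_
    have h1 := mul_le_mul_of_nonneg_left hY htR.le
    have h2 : (t : ℝ) * (1 + x - lt) ≤ t * (258 * (x / w) + (lM - 2 - 257 * (x / w))) := by
      apply mul_le_mul_of_nonneg_left _ htR.le
      linarith
    nlinarith
  have hxw : 1 ≤ x / w := by rw [le_div_iff₀ hw0]; linarith
  have hQ0 : 0 ≤ t * (258 * (x / w)) + 1 + x := by positivity
  have h6 := exp_add_one_le hQ0
  refine hval.trans ((by linarith : _ ≤ Real.exp (t * (258 * (x / w)) + 1 + x + 1)).trans ?_)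
  apply Real.exp_le_exp.2
  have h7 : (t : ℝ) * (258 * (x / w)) ≤ k * (258 * (x / w)) :=
    mul_le_mul_of_nonneg_right htkR (by positivity)
  have h8 : x + 2 ≤ 2 * (k * (x / w)) := by
    have h9 : x ≤ k * (x / w) := by
      calc x = w * (x / w) := by field_simp
        _ ≤ k * (x / w) := mul_le_mul_of_nonneg_right (by linarith) (by positivity)
    linarith
  have h10 : 260 * (k : ℝ) * x / w = k * (258 * (x / w)) + 2 * (k * (x / w)) := by ring
  rw [h10]
  linarith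

theorem exists_poly (p : Par N k x w) :
    ∃ f : ℤ[X], f ≠ 0 ∧ f.natDegree < N ∧ (∀ i, |f.coeff i| ≤ 1) ∧ (X - 1) ^ k ∣ f := by
  have hw0 : 0 < w := by linarith [p.h1]
  have hprod : ∏ _t ∈ range k, Real.exp (260 * k * x / w) < 2 ^ N := by
    rw [prod_const, card_range, ← Real.exp_nat_mul]
    have h1 : (2 : ℝ) ^ N = Real.exp (N * Real.log 2) := by
      rw [Real.exp_nat_mul, Real.exp_log (by norm_num)]
    rw [h1, Real.exp_lt_exp]
    have h2 : (k : ℝ) * (260 * k * x / w) = 260 / 1600 * (1600 * (k : ℝ) ^ 2 * x / w) := by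
      ring
    have h3 : 1600 * (k : ℝ) ^ 2 * x / w ≤ N := by
      rw [div_le_iff₀ hw0]; exact p.k1
    have h4 := Real.log_two_gt_d9
    have hNR : (0 : ℝ) < N := by exact_mod_cast p.hN
    rw [h2]
    nlinarith
  obtain ⟨A, B, hA, hB, hAB, hm⟩ := pigeon (N := N) (k := k)
    (fun _ => Real.exp (260 * k * x / w)) (fun _ => Real.exp_pos _)
    (by
      intro t ht F hF hm
      rcases lt_or_ge ((t : ℝ) * x) k with h | h
      · exact p.per_t_small h hF
      · exact p.per_t_large ht h hF hm) hprod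
  exact ⟨pol A - pol B, pol_sub_ne_zero hAB, natDegree_sub_lt p.hN hA hB, abs_coeff_sub A B,
    dvd_of_mom hm⟩

end Par

end Pool.Agent.H52.Van
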