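import Mathlib

/-! Norm products of integer polynomials over primitive roots of unity. -/

namespace Pool.Agent.H52.Van

open Polynomial Finset

/-- Product of the absolute values of `h` at the primitive `m`-th roots of unity. -/
noncomputable def nrm (m : ℕ) (h : ℤ[X]) : ℝ := ∏ z ∈ primitiveRoots m ℂ, ‖aeval z h‖

lemma nrm_nonneg (m : ℕ) (h : ℤ[X]) : 0 ≤ nrm m h :=
  Finset.prod_nonneg fun _ _ => norm_nonneg _

lemma nrm_mul (m : ℕ) (f g : ℤ[X]) : nrm m (f * g) = nrm m f * nrm m g := by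
  simp [nrm, Finset.prod_mul_distrib]

lemma nrm_pow (m : ℕ) (f : ℤ[X]) (k : ℕ) : nrm m (f ^ k) = nrm m f ^ k := by
  simp [nrm, Finset.prod_pow]

lemma nrm_one (m : ℕ) : nrm m 1 = 1 := by simp [nrm]

lemma nrm_prod {ι : Type*} (m : ℕ) (s : Finset ι) (f : ι → ℤ[X]) :
    nrm m (∏ i ∈ s, f i) = ∏ i ∈ s, nrm m (f i) := by
  classical
  induction s using Finset.induction_on with
  | empty => simp [nrm_one]
  | insert a s ha ih => rw [Finset.prod_insert ha, Finset.prod_insert ha, nrm_mul, ih]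

lemma exists_int (m : ℕ) (h : ℤ[X]) : ∃ z : ℤ, nrm m h = |(z : ℝ)| := by
  refine ⟨resultant (cyclotomic m ℤ) h, ?_⟩
  have hinj : Function.Injective (Int.castRingHom ℂ) := Int.cast_injective
  have h1 := resultant_map_map (cyclotomic m ℤ) h (cyclotomic m ℤ).natDegree h.natDegree
    (Int.castRingHom ℂ)
  have h2 := resultant_eq_prod_eval ((cyclotomic m ℤ).map (Int.castRingHom ℂ))
    (h.map (Int.castRingHom ℂ)) h.natDegree (natDegree_map_le) (IsAlgClosed.splits _)
  rw [natDegree_map_eq_of_injective hinj] at h2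
  rw [h2] at h1
  rw [map_cyclotomic, (cyclotomic.monic m ℂ).leadingCoeff, one_pow, one_mul] at h1
  have h3 : (cyclotomic m ℂ).roots = (primitiveRoots m ℂ).val := by
    rcases Nat.eq_zero_or_pos m with rfl | hm
    · simp
    · have : NeZero ((m : ℕ) : ℂ) := ⟨by exact_mod_cast hm.ne'⟩
      exact cyclotomic.roots_eq_primitiveRoots_val
  rw [h3] at h1
  have h4 : ‖((primitiveRoots m ℂ).val.map (fun z => eval z (h.map (Int.castRingHom ℂ)))).prod‖
      = nrm m h := by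
    change ‖∏ z ∈ primitiveRoots m ℂ, eval z (h.map (Int.castRingHom ℂ))‖ = _
    rw [norm_prod, nrm]
    refine Finset.prod_congr rfl fun z _ => ?_
    rw [eval_map, aeval_def]
    rfl
  rw [← h4]
  rw [h1]
  simp only [eq_intCast]
  rw [Complex.norm_intCast]

lemma aeval_ne_zero_of_not_dvd {m : ℕ} (hm : 0 < m) {h : ℤ[X]} (hd : ¬ cyclotomic m ℤ ∣ h)
    {z : ℂ} (hz : z ∈ primitiveRoots m ℂ) : aeval z h ≠ 0 := by
  intro h0
  have hz' : IsPrimitiveRoot z m := (mem_primitiveRoots hm).1 hz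
  apply hd
  rw [cyclotomic_eq_minpoly hz' hm]
  exact minpoly.isIntegrallyClosed_dvd (hz'.isIntegral hm) h0

lemma one_le_nrm {m : ℕ} {h : ℤ[X]} (hne : ∀ z ∈ primitiveRoots m ℂ, aeval z h ≠ 0) :
    1 ≤ nrm m h := by
  obtain ⟨z, hz⟩ := exists_int m h
  have hpos : 0 < nrm m h := Finset.prod_pos fun z hz => norm_pos_iff.2 (hne z hz)
  rw [hz] at hpos ⊢
  have : z ≠ 0 := by
    rintro rfl
    simp at hpos
  exact_mod_cast Int.one_le_abs this

lemma one_le_nrm' {m : ℕ} (hm : 0 < m) {h : ℤ[X]} (hd : ¬ cyclotomic m ℤ ∣ h) :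
    1 ≤ nrm m h :=
  one_le_nrm fun _ hz => aeval_ne_zero_of_not_dvd hm hd hz

lemma aeval_cyclotomic (z : ℂ) (n : ℕ) :
    aeval z (cyclotomic n ℤ) = eval z (cyclotomic n ℂ) := by
  rw [← map_cyclotomic n (Int.castRingHom ℂ), eval_map, aeval_def]
  rfl

lemma aeval_cyclotomic_ne_zero {m n : ℕ} (hm : 0 < m) (hn : 0 < n) (hmn : m ≠ n) {z : ℂ}
    (hz : z ∈ primitiveRoots m ℂ) : aeval z (cyclotomic n ℤ) ≠ 0 := by
  intro h0
  rw [aeval_cyclotomic] at h0
  have : NeZero ((n : ℕ) : ℂ) := ⟨by exact_mod_cast hn.ne'⟩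
  have h1 : IsPrimitiveRoot z n := isRoot_cyclotomic_iff.1 h0
  exact hmn (((mem_primitiveRoots hm).1 hz).unique h1)

lemma one_le_nrm_cyclotomic {m n : ℕ} (hm : 0 < m) (hn : 0 < n) (hmn : m ≠ n) :
    1 ≤ nrm m (cyclotomic n ℤ) :=
  one_le_nrm fun _ hz => aeval_cyclotomic_ne_zero hm hn hmn hz

lemma nrm_cyclotomic_symm {m n : ℕ} (hm : 0 < m) (hn : 0 < n) :
    nrm m (cyclotomic n ℤ) = nrm n (cyclotomic m ℤ) := by
  have key : ∀ {a b : ℕ}, 0 < b → ∀ z : ℂ,
      ‖aeval z (cyclotomic b ℤ)‖ = ∏ w ∈ primitiveRoots b ℂ, ‖z - w‖ := by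
    intro a b hb z
    rw [aeval_cyclotomic, cyclotomic_eq_prod_X_sub_primitiveRoots
      (Complex.isPrimitiveRoot_exp b hb.ne'), eval_prod, norm_prod]
    simp
  unfold nrm
  rw [Finset.prod_congr rfl fun z _ => key (a := 0) hn z,
    Finset.prod_congr rfl fun z _ => key (a := 0) hm z, Finset.prod_comm]
  exact Finset.prod_congr rfl fun z _ => Finset.prod_congr rfl fun w _ => norm_sub_rev _ _

lemma cyclotomic_modq (m q : ℕ) [hq : Fact q.Prime] (a : ℕ) :
    ∃ s : ℕ, 1 ≤ s ∧ cyclotomic (m * q ^ a) (ZMod q) = cyclotomic m (ZMod q) ^ s := by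
  induction a with
  | zero => exact ⟨1, le_rfl, by simp⟩
  | succ a ih =>
    obtain ⟨s, hs, h⟩ := ih
    have he : m * q ^ (a + 1) = (m * q ^ a) * q := by ring
    by_cases hd : q ∣ m * q ^ a
    · refine ⟨s * q, ?_, ?_⟩
      · have := hq.out.one_lt
        nlinarith
      · rw [he, cyclotomic_mul_prime_dvd_eq_pow (ZMod q) hd, h, ← pow_mul]
    · refine ⟨s * (q - 1), ?_, ?_⟩
      · have h1 := hq.out.one_lt
        have h2 : 1 ≤ q - 1 := by omega
        nlinarith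
      · rw [he, cyclotomic_mul_prime_eq_pow_of_not_dvd (ZMod q) hd, h, ← pow_mul]

lemma nrm_ge_of_primepow {m q a : ℕ} (hm : 0 < m) (hq : q.Prime) (ha : 0 < a) :
    (q : ℝ) ^ (Nat.totient m) ≤ nrm m (cyclotomic (m * q ^ a) ℤ) := by
  have : Fact q.Prime := ⟨hq⟩
  obtain ⟨s, hs, h⟩ := cyclotomic_modq m q a
  have h1 : ((cyclotomic (m * q ^ a) ℤ - cyclotomic m ℤ ^ s).map (Int.castRingHom (ZMod q))) = 0 := by
    rw [Polynomial.map_sub, Polynomial.map_pow, map_cyclotomic, map_cyclotomic, h, sub_self]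
  have h2 : (C (q : ℤ)) ∣ (cyclotomic (m * q ^ a) ℤ - cyclotomic m ℤ ^ s) := by
    rw [C_dvd_iff_dvd_coeff]
    intro i
    have h3 := congrArg (fun f => coeff f i) h1
    simp only [coeff_map, coeff_zero, eq_intCast] at h3
    exact (ZMod.intCast_zmod_eq_zero_iff_dvd _ _).1 h3
  obtain ⟨g, hg⟩ := h2
  have hne : m ≠ m * q ^ a := by
    intro h0
    have h4 : 1 < q ^ a := Nat.one_lt_pow ha.ne' hq.one_lt
    nlinarith
  have hpos : 0 < m * q ^ a := Nat.mul_pos hm (pow_pos hq.pos _)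
  have hval : ∀ z ∈ primitiveRoots m ℂ,
      aeval z (cyclotomic (m * q ^ a) ℤ) = (q : ℂ) * aeval z g := by
    intro z hz
    have h5 : cyclotomic (m * q ^ a) ℤ = cyclotomic m ℤ ^ s + C (q : ℤ) * g := by
      rw [← hg]; ring
    have h6 : aeval z (cyclotomic m ℤ) = 0 := by
      rw [aeval_cyclotomic]
      exact IsPrimitiveRoot.isRoot_cyclotomic hm ((mem_primitiveRoots hm).1 hz)
    rw [h5, map_add, map_pow, h6, zero_pow (by omega), zero_add, map_mul, aeval_C]
    simp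
  have hgne : ∀ z ∈ primitiveRoots m ℂ, aeval z g ≠ 0 := by
    intro z hz h0
    apply aeval_cyclotomic_ne_zero hm hpos hne hz
    rw [hval z hz, h0, mul_zero]
  have h7 : nrm m (cyclotomic (m * q ^ a) ℤ) = (q : ℝ) ^ (Nat.totient m) * nrm m g := by
    unfold nrm
    rw [Finset.prod_congr rfl fun z hz => by rw [hval z hz, norm_mul], Finset.prod_mul_distrib,
      Finset.prod_const, Complex.card_primitiveRoots]
    simp
  rw [h7]
  have h8 := one_le_nrm hgne
  have h9 : (0 : ℝ) < (q : ℝ) ^ (Nat.totient m) := pow_pos (by exact_mod_cast hq.pos) _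
  nlinarith

lemma nrm_deriv {m : ℕ} (hm : 0 < m) :
    nrm m (derivative (cyclotomic m ℤ)) * nrm m (∏ d ∈ m.properDivisors, cyclotomic d ℤ)
      = (m : ℝ) ^ (Nat.totient m) := by
  rw [← nrm_mul]
  have h1 : cyclotomic m ℤ * ∏ d ∈ m.properDivisors, cyclotomic d ℤ = X ^ m - 1 := by
    rw [← prod_cyclotomic_eq_X_pow_sub_one hm, ← Nat.cons_self_properDivisors hm.ne',
      Finset.prod_cons]
  set R := ∏ d ∈ m.properDivisors, cyclotomic d ℤ with hR
  have h2 : ∀ z ∈ primitiveRoots m ℂ, ‖aeval z (derivative (cyclotomic m ℤ) * R)‖ = (m : ℝ) := by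
    intro z hz
    have hz' := (mem_primitiveRoots hm).1 hz
    have h6 : aeval z (cyclotomic m ℤ) = 0 := by
      rw [aeval_cyclotomic]
      exact IsPrimitiveRoot.isRoot_cyclotomic hm hz'
    have h3 := congrArg (fun f => aeval z (derivative f)) h1
    simp only [derivative_mul, map_add, map_mul, h6, zero_mul, add_zero, derivative_sub,
      derivative_X_pow, derivative_one, sub_zero, map_natCast, map_pow, aeval_X] at h3
    rw [map_mul, h3, norm_mul, norm_pow, hz'.norm'_eq_one hm.ne', one_pow, mul_one]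
    simp
  unfold nrm
  rw [Finset.prod_congr rfl h2, Finset.prod_const, Complex.card_primitiveRoots]

lemma proper_dvd {m : ℕ} (hm : 0 < m) :
    (∏ d ∈ m.properDivisors, cyclotomic d ℤ) ∣ ∏ q ∈ m.primeFactors, (X ^ (m / q) - 1 : ℤ[X]) := by
  classical
  have hmaps : ∀ d ∈ m.properDivisors, (m / d).minFac ∈ m.primeFactors := by
    intro d hd
    rw [Nat.mem_properDivisors] at hd
    obtain ⟨⟨c, rfl⟩, hlt⟩ := hd
    have hd0 : 0 < d := Nat.pos_of_ne_zero (by rintro rfl; simp at hm)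
    rw [Nat.mul_div_cancel_left _ hd0]
    have hc : c ≠ 1 := by rintro rfl; simp at hlt
    rw [Nat.mem_primeFactors]
    exact ⟨Nat.minFac_prime hc, (Nat.minFac_dvd c).trans (dvd_mul_left _ _), hm.ne'⟩
  rw [← Finset.prod_fiberwise_of_maps_to hmaps]
  refine Finset.prod_dvd_prod_of_dvd _ _ fun q hq => ?_
  have hq' := Nat.mem_primeFactors.1 hq
  have hmq : 0 < m / q := Nat.div_pos (Nat.le_of_dvd hm hq'.2.1) hq'.1.pos
  rw [← prod_cyclotomic_eq_X_pow_sub_one hmq]
  refine Finset.prod_dvd_prod_of_subset _ _ _ fun d hd => ?_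
  rw [Finset.mem_filter, Nat.mem_properDivisors] at hd
  obtain ⟨⟨⟨c, rfl⟩, hlt⟩, hqd⟩ := hd
  have hd0 : 0 < d := Nat.pos_of_ne_zero (by rintro rfl; simp at hm)
  rw [Nat.mul_div_cancel_left _ hd0] at hqd
  rw [Nat.mem_divisors]
  refine ⟨?_, hmq.ne'⟩
  rw [← hqd, Nat.mul_div_assoc _ (Nat.minFac_dvd c)]
  exact dvd_mul_right _ _

lemma nrm_proper_le {m : ℕ} (hm : 0 < m) :
    nrm m (∏ d ∈ m.properDivisors, cyclotomic d ℤ)
      ≤ (2 : ℝ) ^ (Nat.totient m * m.primeFactors.card) := by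
  obtain ⟨Q, hQ⟩ := proper_dvd hm
  have h1 : ∀ q ∈ m.primeFactors, ∀ z ∈ primitiveRoots m ℂ,
      aeval z (X ^ (m / q) - 1 : ℤ[X]) ≠ 0 := by
    intro q hq z hz h0
    have hz' := (mem_primitiveRoots hm).1 hz
    have hq' := Nat.mem_primeFactors.1 hq
    have hmq : 0 < m / q := Nat.div_pos (Nat.le_of_dvd hm hq'.2.1) hq'.1.pos
    simp only [map_sub, map_pow, aeval_X, map_one, sub_eq_zero] at h0
    have := hz'.dvd_of_pow_eq_one _ h0
    have h3 := Nat.le_of_dvd hmq this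
    have h4 : m / q < m := Nat.div_lt_self hm hq'.1.one_lt
    omega
  have h2 : nrm m (∏ q ∈ m.primeFactors, (X ^ (m / q) - 1 : ℤ[X]))
      ≤ (2 : ℝ) ^ (Nat.totient m * m.primeFactors.card) := by
    rw [nrm_prod]
    have h3 : ∀ q ∈ m.primeFactors, nrm m (X ^ (m / q) - 1 : ℤ[X]) ≤ (2 : ℝ) ^ (Nat.totient m) := by
      intro q _
      unfold nrm
      calc ∏ z ∈ primitiveRoots m ℂ, ‖aeval z (X ^ (m / q) - 1 : ℤ[X])‖
          ≤ ∏ z ∈ primitiveRoots m ℂ, (2 : ℝ) := by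
            refine Finset.prod_le_prod (fun _ _ => norm_nonneg _) fun z hz => ?_
            have hz' := (mem_primitiveRoots hm).1 hz
            simp only [map_sub, map_pow, aeval_X, map_one]
            calc ‖z ^ (m / q) - 1‖ ≤ ‖z ^ (m / q)‖ + ‖(1 : ℂ)‖ := norm_sub_le _ _
              _ = 2 := by
                rw [norm_pow, hz'.norm'_eq_one hm.ne', one_pow, norm_one]; norm_num
        _ = (2 : ℝ) ^ (Nat.totient m) := by
            rw [Finset.prod_const, Complex.card_primitiveRoots]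
    calc ∏ q ∈ m.primeFactors, nrm m (X ^ (m / q) - 1 : ℤ[X])
        ≤ ∏ q ∈ m.primeFactors, (2 : ℝ) ^ (Nat.totient m) :=
          Finset.prod_le_prod (fun _ _ => nrm_nonneg _ _) h3
      _ = (2 : ℝ) ^ (Nat.totient m * m.primeFactors.card) := by
          rw [Finset.prod_const, ← pow_mul]
  have hQ1 : 1 ≤ nrm m Q := by
    refine one_le_nrm fun z hz h0 => ?_
    have h5 : aeval z (∏ q ∈ m.primeFactors, (X ^ (m / q) - 1 : ℤ[X])) = 0 := by
      rw [hQ, map_mul, h0, mul_zero]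
    rw [map_prod, Finset.prod_eq_zero_iff] at h5
    obtain ⟨q, hq, h6⟩ := h5
    exact h1 q hq z hz h6
  rw [hQ, nrm_mul] at h2
  have h7 := nrm_nonneg m (∏ d ∈ m.properDivisors, cyclotomic d ℤ)
  nlinarith

/-- Value of a Hasse derivative at a root of high multiplicity. -/
lemma hasse_eval (z : ℂ) (e : ℕ) (H : ℂ[X]) :
    (hasseDeriv e ((X - C z) ^ e * H)).eval z = H.eval z := by
  rw [← taylor_coeff, taylor_mul, ← taylor_coeff_zero]
  have h1 : taylor z ((X - C z) ^ e) = X ^ e := by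
    rw [taylor_pow]
    congr 1
    rw [map_sub, taylor_X, taylor_C]
    ring
  rw [h1, coeff_X_pow_mul']
  simp

lemma aeval_hasse (z : ℂ) (e : ℕ) (f : ℤ[X]) :
    aeval z (hasseDeriv e f) = (hasseDeriv e (f.map (Int.castRingHom ℂ))).eval z := by
  have h1 : hasseDeriv e (f.map (Int.castRingHom ℂ)) = (hasseDeriv e f).map (Int.castRingHom ℂ) := by
    ext i
    simp [hasseDeriv_coeff]
  rw [h1, eval_map, aeval_def]
  rfl

lemma hasse_cyclotomic {m : ℕ} (hm : 0 < m) (e : ℕ) (g : ℤ[X]) {z : ℂ}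
    (hz : z ∈ primitiveRoots m ℂ) :
    aeval z (hasseDeriv e (cyclotomic m ℤ ^ e * g))
      = (aeval z (derivative (cyclotomic m ℤ))) ^ e * aeval z g := by
  have hz' := (mem_primitiveRoots hm).1 hz
  have hroot : IsRoot (cyclotomic m ℂ) z := IsPrimitiveRoot.isRoot_cyclotomic hm hz'
  obtain ⟨W, hW⟩ := dvd_iff_isRoot.2 hroot
  have h1 : aeval z (derivative (cyclotomic m ℤ)) = W.eval z := by
    have h2 : aeval z (derivative (cyclotomic m ℤ)) = (derivative (cyclotomic m ℂ)).eval z := by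
      rw [← map_cyclotomic m (Int.castRingHom ℂ), derivative_map, eval_map, aeval_def]
      rfl
    rw [h2, hW]
    simp [derivative_mul]
  rw [aeval_hasse, h1, Polynomial.map_mul, Polynomial.map_pow, map_cyclotomic, hW, mul_pow,
    mul_assoc, hasse_eval, eval_mul, eval_pow]
  congr 1
  rw [eval_map, aeval_def]
  rfl

/-- Trivial upper bound for Hasse derivatives on the unit circle. -/
lemma hasse_le {N : ℕ} {f : ℤ[X]} (hdeg : f.natDegree < N) (hc : ∀ i, |f.coeff i| ≤ 1)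
    (e : ℕ) {z : ℂ} (hz : ‖z‖ = 1) :
    ‖aeval z (hasseDeriv e f)‖ ≤ (N.choose (e + 1) : ℝ) := by
  have h0 : f = ∑ i ∈ Finset.range N, monomial i (f.coeff i) := as_sum_range' f N hdeg
  have h1 : aeval z (hasseDeriv e f)
      = ∑ i ∈ Finset.range N, ((i.choose e : ℕ) : ℂ) * ((f.coeff i : ℤ) : ℂ) * z ^ (i - e) := by
    conv_lhs => rw [h0]
    rw [map_sum, map_sum]
    refine Finset.sum_congr rfl fun i _ => ?_
    rw [hasseDeriv_monomial, aeval_monomial]
    simp
  rw [h1]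
  calc ‖∑ i ∈ Finset.range N, ((i.choose e : ℕ) : ℂ) * ((f.coeff i : ℤ) : ℂ) * z ^ (i - e)‖
      ≤ ∑ i ∈ Finset.range N, ‖((i.choose e : ℕ) : ℂ) * ((f.coeff i : ℤ) : ℂ) * z ^ (i - e)‖ :=
        norm_sum_le _ _
    _ ≤ ∑ i ∈ Finset.range N, ((i.choose e : ℕ) : ℝ) := by
        refine Finset.sum_le_sum fun i _ => ?_
        rw [norm_mul, norm_mul, norm_pow, hz, one_pow, mul_one, Complex.norm_natCast,
          Complex.norm_intCast]
        have h2 : |((f.coeff i : ℤ) : ℝ)| ≤ 1 := by exact_mod_cast hc i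
        have h3 : (0 : ℝ) ≤ ((i.choose e : ℕ) : ℝ) := Nat.cast_nonneg _
        nlinarith
    _ = (N.choose (e + 1) : ℝ) := by
        rw [← Nat.cast_sum]
        congr 1
        clear hdeg h0 h1
        induction N with
        | zero => simp
        | succ N ih => rw [Finset.sum_range_succ, ih, Nat.choose_succ_succ']; ring

end Pool.Agent.H52.Van
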