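import Pool.Agent.H52.Van.Asym

/-! Lower bound for the maximal order of vanishing at `1`. -/

namespace Pool.Agent.H52.Van

open Finset Polynomial Filter

lemma analytic : ∃ X₀ : ℝ, ∀ x : ℝ, X₀ ≤ x → 20 ≤ Real.log x ∧
    √(2 * x) * (80 + 80 * Real.log x) * Real.log x ≤ x ∧
    102400 * x ^ 10 ≤ Real.exp (x / 3) := by
  have h1 : ∀ᶠ x : ℝ in atTop, 102400 * 3 ^ 10 ≤ Real.exp (x / 3) / (x / 3) ^ 10 := by
    have h2 := (Real.tendsto_exp_div_pow_atTop 10).comp
      (tendsto_id.atTop_div_const (by norm_num : (0 : ℝ) < 3))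
    exact h2.eventually_ge_atTop (102400 * 3 ^ 10)
  obtain ⟨a, ha⟩ := eventually_atTop.1 h1
  refine ⟨max (max a 1) (max (Real.exp 20) (108 ^ 8)), fun x hx => ?_⟩
  have hxa : a ≤ x := le_trans (le_trans (le_max_left _ _) (le_max_left _ _)) hx
  have hx1 : 1 ≤ x := le_trans (le_trans (le_max_right _ _) (le_max_left _ _)) hx
  have hxe : Real.exp 20 ≤ x := le_trans (le_trans (le_max_left _ _) (le_max_right _ _)) hx
  have hx8 : (108 : ℝ) ^ 8 ≤ x := le_trans (le_trans (le_max_right _ _) (le_max_right _ _)) hx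
  have hx0 : 0 < x := by linarith
  have hl20 : 20 ≤ Real.log x := (Real.le_log_iff_exp_le hx0).2 hxe
  refine ⟨hl20, ?_, ?_⟩
  · set u : ℝ := x ^ ((1 : ℝ) / 8) with hu
    have hu0 : 0 < u := Real.rpow_pos_of_pos hx0 _
    have hu8 : u ^ 8 = x := by
      rw [hu, ← Real.rpow_natCast, ← Real.rpow_mul hx0.le]
      norm_num
    have hu108 : 108 ≤ u := by
      have h3 : (108 : ℝ) ^ 8 ≤ u ^ 8 := by rw [hu8]; exact hx8
      exact le_of_pow_le_pow_left₀ (by norm_num) hu0.le h3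
    have hlog : Real.log x ≤ 8 * u := by
      have := Real.log_le_rpow_div hx0.le (by norm_num : (0 : ℝ) < 1 / 8)
      rw [← hu] at this
      linarith
    have hs : √(2 * x) ≤ 2 * u ^ 4 := by
      rw [Real.sqrt_le_left (by positivity)]
      have h4 : (2 * u ^ 4) ^ 2 = 4 * u ^ 8 := by ring
      rw [h4, hu8]
      linarith
    have hl0 : 0 ≤ Real.log x := by linarith
    calc √(2 * x) * (80 + 80 * Real.log x) * Real.log x
        ≤ (2 * u ^ 4) * (80 + 80 * (8 * u)) * (8 * u) := by gcongr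
      _ ≤ (2 * u ^ 4) * (720 * u) * (8 * u) := by
          have : 80 + 80 * (8 * u) ≤ 720 * u := by linarith
          gcongr
      _ = 11520 * u ^ 6 := by ring
      _ ≤ u ^ 2 * u ^ 6 := by
          have : 11520 ≤ u ^ 2 := by nlinarith
          gcongr
      _ = x := by rw [← hu8]; ring
  · have h5 := ha x hxa
    rw [le_div_iff₀ (by positivity), div_pow] at h5
    calc 102400 * x ^ 10 = 102400 * 3 ^ 10 * (x ^ 10 / 3 ^ 10) := by field_simp
      _ ≤ Real.exp (x / 3) := h5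

theorem large : ∃ N₀ : ℕ, 3 ≤ N₀ ∧ ∀ N : ℕ, N₀ ≤ N → ∃ k : ℕ,
    √(N * Real.log (Real.log N) / Real.log N) ≤ 80 * k ∧
    ∃ f : ℤ[X], f ≠ 0 ∧ f.natDegree < N ∧ (∀ i, |f.coeff i| ≤ 1) ∧ (X - 1) ^ k ∣ f := by
  obtain ⟨X₀, hX⟩ := analytic
  refine ⟨max 3 ⌈Real.exp X₀⌉₊, le_max_left _ _, fun N hN => ?_⟩
  have hN3 : 3 ≤ N := (le_max_left _ _).trans hN
  have hNe : Real.exp X₀ ≤ N := by
    have h1 : ⌈Real.exp X₀⌉₊ ≤ N := (le_max_right _ _).trans hN
    exact (Nat.le_ceil _).trans (by exact_mod_cast h1)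
  have hNR : (0 : ℝ) < N := by
    have : (3 : ℝ) ≤ N := by exact_mod_cast hN3
    linarith
  set x := Real.log N with hx
  have hxX : X₀ ≤ x := (Real.le_log_iff_exp_le hNR).2 hNe
  obtain ⟨h1, h2, h4⟩ := hX x hxX
  set w := Real.log x with hw
  have hx0 : 0 < x := by
    by_contra hcon
    have hx' : x ≤ 0 := not_lt.1 hcon
    have hx'' : 0 ≤ x := Real.log_nonneg (by
      have : (3 : ℝ) ≤ N := by exact_mod_cast hN3
      linarith)
    have : x = 0 := le_antisymm hx' hx''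
    rw [hw, this, Real.log_zero] at h1
    linarith
  have hx1 : 1 ≤ x := by
    have := Real.log_le_sub_one_of_pos hx0
    linarith
  have hw0 : 0 < w := by linarith
  set R := √(N * w / x) with hR
  have hR0 : 0 ≤ R := Real.sqrt_nonneg _
  have hR2 : R ^ 2 = N * w / x := Real.sq_sqrt (by positivity)
  have hNexp : (N : ℝ) = Real.exp x := by rw [hx, Real.exp_log hNR]
  have hR40 : 40 ≤ R := by
    apply Real.le_sqrt_of_sq_le
    rw [le_div_iff₀ hx0]
    have h5 : Real.exp (x / 3) ≤ N := by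
      rw [hNexp]; exact Real.exp_le_exp.2 (by linarith)
    have h6 : x ≤ x ^ 10 := by
      calc x = x ^ 1 := (pow_one x).symm
        _ ≤ x ^ 10 := pow_le_pow_right₀ hx1 (by norm_num)
    have h7 : (N : ℝ) ≤ N * w := le_mul_of_one_le_right hNR.le (by linarith)
    nlinarith
  set k := ⌊R / 40⌋₊ with hk
  have hk1 : (k : ℝ) ≤ R / 40 := Nat.floor_le (by positivity)
  have hk2 : R / 40 < k + 1 := Nat.lt_floor_add_one _
  have hk3 : (1 : ℝ) ≤ k := by
    have : 1 ≤ k := Nat.le_floor (by push_cast; linarith)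
    exact_mod_cast this
  have hRk : R ≤ 80 * k := by linarith
  have hpar : Par N k x w := by
    refine ⟨by omega, hx, hw, h1, h2, h4, ?_, ?_⟩
    · have h8 : 1600 * (k : ℝ) ^ 2 ≤ R ^ 2 := by
        have h9 : 40 * (k : ℝ) ≤ R := by linarith
        calc 1600 * (k : ℝ) ^ 2 = (40 * k) ^ 2 := by ring
          _ ≤ R ^ 2 := pow_le_pow_left₀ (by positivity) h9 2
      rw [hR2, le_div_iff₀ hx0] at h8
      exact h8
    · have h8 : R ^ 2 ≤ 6400 * (k : ℝ) ^ 2 := by
        calc R ^ 2 ≤ (80 * k) ^ 2 := pow_le_pow_left₀ hR0 hRk 2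
          _ = 6400 * (k : ℝ) ^ 2 := by ring
      rw [hR2, div_le_iff₀ hx0] at h8
      exact h8
  exact ⟨k, hRk, hpar.exists_poly⟩

end Pool.Agent.H52.Van
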