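import Mathlib

/-! Elementary prime number sums. -/

namespace Pool.Agent.H52.Van

open Finset ArithmeticFunction

/-- All prime factors of `m` are at least `P`. -/
def Rough (P m : ℕ) : Prop := ∀ q ∈ m.primeFactors, P ≤ q

lemma log_factorial_eq (N : ℕ) :
    Real.log (N.factorial) = ∑ n ∈ Ioc 0 N, Λ n * ((N / n : ℕ) : ℝ) := by
  have h := ArithmeticFunction.sum_Ioc_mul_zeta_eq_sum (R := ℝ) Λ N
  rw [← h]
  clear h
  induction N with
  | zero => simp
  | succ N ih =>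
    have h1 : Ioc 0 (N + 1) = insert (N + 1) (Ioc 0 N) := by
      ext x; simp only [mem_Ioc, mem_insert]; omega
    rw [h1, sum_insert (by simp), ← ih, Nat.factorial_succ]
    have h2 : ((Λ * (ArithmeticFunction.zeta : ArithmeticFunction ℝ)) : ArithmeticFunction ℝ) (N + 1)
        = Real.log ((N + 1 : ℕ) : ℝ) := by
      rw [vonMangoldt_mul_zeta]; rfl
    rw [h2]
    push_cast
    rw [Real.log_mul (by positivity) (by positivity)]

lemma sum_vM_div_ge {N : ℕ} (hN : 1 ≤ N) :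
    Real.log N - 1 ≤ ∑ n ∈ Ioc 0 N, Λ n / n := by
  have hN0 : (0 : ℝ) < N := by exact_mod_cast hN
  have h1 := Real.pow_div_factorial_le_exp (x := (N : ℝ)) hN0.le N
  have h2 : 0 < (N : ℝ) ^ N / (N.factorial : ℝ) := by positivity
  have h3 := Real.log_le_log h2 h1
  rw [Real.log_exp, Real.log_div (by positivity) (by positivity), Real.log_pow,
    log_factorial_eq] at h3
  have h4 : ∑ n ∈ Ioc 0 N, Λ n * ((N / n : ℕ) : ℝ) ≤ N * ∑ n ∈ Ioc 0 N, Λ n / n := by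
    rw [mul_sum]
    refine sum_le_sum fun n _ => ?_
    have h5 : ((N / n : ℕ) : ℝ) ≤ (N : ℝ) / n := Nat.cast_div_le
    calc Λ n * ((N / n : ℕ) : ℝ) ≤ Λ n * ((N : ℝ) / n) :=
          mul_le_mul_of_nonneg_left h5 vonMangoldt_nonneg
      _ = N * (Λ n / n) := by ring
  nlinarith

lemma sum_log_prime_div_le {N : ℕ} (hN : 1 ≤ N) :
    ∑ q ∈ (Ioc 0 N).filter Nat.Prime, Real.log q / q ≤ 2 * Real.log N := by
  have hN0 : (0 : ℝ) < N := by exact_mod_cast hN
  have h1 : Real.log (N.factorial) ≤ N * Real.log N := by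
    rw [← Real.log_pow]
    exact Real.log_le_log (by positivity) (by exact_mod_cast Nat.factorial_le_pow N)
  rw [log_factorial_eq] at h1
  have h2 : ∑ q ∈ (Ioc 0 N).filter Nat.Prime, Real.log q * ((N / q : ℕ) : ℝ)
      ≤ ∑ n ∈ Ioc 0 N, Λ n * ((N / n : ℕ) : ℝ) := by
    rw [sum_filter]
    refine sum_le_sum fun n _ => ?_
    split_ifs with hp
    · rw [vonMangoldt_apply_prime hp]
    · exact mul_nonneg vonMangoldt_nonneg (Nat.cast_nonneg _)
  have h3 : (N : ℝ) / 2 * ∑ q ∈ (Ioc 0 N).filter Nat.Prime, Real.log q / q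
      ≤ ∑ q ∈ (Ioc 0 N).filter Nat.Prime, Real.log q * ((N / q : ℕ) : ℝ) := by
    rw [mul_sum]
    refine sum_le_sum fun q hq => ?_
    simp only [mem_filter, mem_Ioc] at hq
    obtain ⟨⟨hq0, hqN⟩, hp⟩ := hq
    have hq0' : (0 : ℝ) < q := by exact_mod_cast hq0
    have h4 : (N : ℝ) / (2 * q) ≤ ((N / q : ℕ) : ℝ) := by
      rw [div_le_iff₀ (by positivity)]
      have h5 : N < q * (N / q + 1) := Nat.lt_mul_div_succ N hq0
      have h6 : 1 ≤ N / q := Nat.div_pos hqN hq0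
      have h7 : N ≤ (N / q) * (2 * q) := by nlinarith
      exact_mod_cast h7
    calc (N : ℝ) / 2 * (Real.log q / q) = Real.log q * ((N : ℝ) / (2 * q)) := by
          field_simp
      _ ≤ _ := mul_le_mul_of_nonneg_left h4 (Real.log_nonneg (by exact_mod_cast hq0))
  have h8 : (N : ℝ) / 2 * ∑ q ∈ (Ioc 0 N).filter Nat.Prime, Real.log q / q ≤ N * Real.log N := by
    linarith
  have h9 : (N : ℝ) / 2 * ∑ q ∈ (Ioc 0 N).filter Nat.Prime, Real.log q / q
      ≤ (N : ℝ) / 2 * (2 * Real.log N) := by linarith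
  exact le_of_mul_le_mul_left h9 (by positivity)

lemma geom_bound {r : ℝ} (hr0 : 0 ≤ r) (hr : r ≤ 1 / 2) (n : ℕ) :
    ∑ a ∈ Ioc 0 n, r ^ a ≤ 2 * r := by
  have h : ∑ a ∈ Ioc 0 n, r ^ a ≤ 2 * r * (1 - r ^ n) := by
    induction n with
    | zero => simp
    | succ n ih =>
      have h1 : Ioc 0 (n + 1) = insert (n + 1) (Ioc 0 n) := by
        ext x; simp only [mem_Ioc, mem_insert]; omega
      rw [h1, sum_insert (by simp)]
      have h2 : 0 ≤ r ^ n := pow_nonneg hr0 _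
      rw [pow_succ]
      nlinarith [mul_nonneg h2 hr0]
  have h2 : 0 ≤ r ^ n := pow_nonneg hr0 _
  nlinarith [mul_nonneg h2 hr0]

lemma smooth_sum_le {P : ℕ} (hP : 2 ≤ P) (X : ℕ) [DecidablePred (Rough P)] :
    ∑ d ∈ (Ioc 0 X).filter (fun d => ¬ Rough P d), Λ d / d ≤ 4 * Real.log P := by
  classical
  set D := (Ioc 0 X).filter (fun d => ¬ Rough P d) with hD
  set Q := (Ioc 0 P).filter Nat.Prime with hQ
  -- restrict to prime powers
  have h1 : ∑ d ∈ D, Λ d / d = ∑ d ∈ D.filter IsPrimePow, Λ d / d := by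
    refine (sum_filter_of_ne fun d _ hne => ?_).symm
    by_contra hp
    exact hne (by rw [vonMangoldt_eq_zero_iff.2 hp, zero_div])
  have h2 : D.filter IsPrimePow ⊆ (Q ×ˢ Ioc 0 X).image (fun x => x.1 ^ x.2) := by
    intro d hd
    simp only [hD, mem_filter, mem_Ioc] at hd
    obtain ⟨⟨⟨hd0, hdX⟩, hR⟩, hpp⟩ := hd
    obtain ⟨q, a, hq, ha, rfl⟩ := (isPrimePow_nat_iff _).1 hpp
    rw [mem_image]
    refine ⟨(q, a), ?_, rfl⟩
    simp only [hQ, mem_product, mem_filter, mem_Ioc]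
    refine ⟨⟨⟨hq.pos, ?_⟩, hq⟩, ha, ?_⟩
    · by_contra hcon
      apply hR
      intro p hp
      have h3 : p ∣ q ^ a := Nat.dvd_of_mem_primeFactors hp
      have h4 : p = q := (Nat.prime_dvd_prime_iff_eq (Nat.prime_of_mem_primeFactors hp) hq).1
        ((Nat.prime_of_mem_primeFactors hp).dvd_of_dvd_pow h3)
      omega
    · exact (Nat.lt_pow_self hq.one_lt).le.trans hdX
  rw [h1]
  calc ∑ d ∈ D.filter IsPrimePow, Λ d / d
      ≤ ∑ d ∈ (Q ×ˢ Ioc 0 X).image (fun x => x.1 ^ x.2), Λ d / (d : ℝ) :=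
        sum_le_sum_of_subset_of_nonneg h2 fun d _ _ =>
          div_nonneg vonMangoldt_nonneg (Nat.cast_nonneg _)
    _ ≤ ∑ x ∈ Q ×ˢ Ioc 0 X, Λ (x.1 ^ x.2) / ((x.1 ^ x.2 : ℕ) : ℝ) :=
        sum_image_le_of_nonneg (fun d _ => div_nonneg vonMangoldt_nonneg (Nat.cast_nonneg _))
    _ = ∑ q ∈ Q, ∑ a ∈ Ioc 0 X, Λ (q ^ a) / ((q ^ a : ℕ) : ℝ) := by
        rw [sum_product]
    _ ≤ ∑ q ∈ Q, 2 * (Real.log q / q) := by
        refine sum_le_sum fun q hq => ?_
        simp only [hQ, mem_filter, mem_Ioc] at hq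
        have hq2 : (2 : ℝ) ≤ q := by exact_mod_cast hq.2.two_le
        have h3 : ∑ a ∈ Ioc 0 X, Λ (q ^ a) / ((q ^ a : ℕ) : ℝ)
            = Real.log q * ∑ a ∈ Ioc 0 X, ((q : ℝ)⁻¹) ^ a := by
          rw [mul_sum]
          refine sum_congr rfl fun a ha => ?_
          rw [mem_Ioc] at ha
          rw [vonMangoldt_apply_pow (by omega), vonMangoldt_apply_prime hq.2]
          push_cast
          rw [inv_pow, div_eq_mul_inv]
        rw [h3]
        have h4 : (q : ℝ)⁻¹ ≤ 1 / 2 := by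
          rw [one_div]; exact inv_anti₀ (by norm_num) hq2
        have h5 := geom_bound (inv_nonneg.2 (by linarith)) h4 X
        have h6 : 0 ≤ Real.log q := Real.log_nonneg (by linarith)
        calc Real.log q * ∑ a ∈ Ioc 0 X, ((q : ℝ)⁻¹) ^ a ≤ Real.log q * (2 * (q : ℝ)⁻¹) :=
              mul_le_mul_of_nonneg_left h5 h6
          _ = 2 * (Real.log q / q) := by ring
    _ = 2 * ∑ q ∈ Q, Real.log q / q := by rw [mul_sum]
    _ ≤ 4 * Real.log P := by
        have := sum_log_prime_div_le (N := P) (by omega)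
        linarith

lemma rough_mul_inj {P a b a' b' : ℕ} (ha0 : 0 < a) (ha : a < P) (hb : Rough P b) (hb0 : 0 < b)
    (ha0' : 0 < a') (ha' : a' < P) (hb' : Rough P b') (hb0' : 0 < b') (h : a * b = a' * b') :
    a = a' := by
  have key : ∀ {u v : ℕ}, 0 < u → u < P → Rough P v → 0 < v → Nat.Coprime u v := by
    intro u v hu0 hu hv hv0
    rw [Nat.coprime_iff_gcd_eq_one] at *
    by_contra hne
    obtain ⟨q, hq, hqd⟩ := Nat.exists_prime_and_dvd hne
    have h1 : q ∣ u := hqd.trans (Nat.gcd_dvd_left _ _)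
    have h2 : q ∣ v := hqd.trans (Nat.gcd_dvd_right _ _)
    have h3 := hv q (Nat.mem_primeFactors.2 ⟨hq, h2, hv0.ne'⟩)
    have h4 := Nat.le_of_dvd hu0 h1
    omega
  apply Nat.dvd_antisymm
  · exact (key ha0 ha hb' hb0').dvd_of_dvd_mul_right (h ▸ dvd_mul_right a b)
  · exact (key ha0' ha' hb hb0).dvd_of_dvd_mul_right (h.symm ▸ dvd_mul_right a' b')

lemma rough_sum_le {P X : ℕ} (hP : 2 ≤ P) [DecidablePred (Rough P)] :
    ∑ b ∈ (Ioc 0 X).filter (Rough P), (1 : ℝ) / b ≤ (1 + Real.log (P * X)) / Real.log P := by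
  classical
  set B := (Ioc 0 X).filter (Rough P) with hB
  have hlogP : 0 < Real.log P := Real.log_pos (by exact_mod_cast hP)
  rw [le_div_iff₀ hlogP]
  have hA : Real.log P ≤ ∑ a ∈ Ioc 0 (P - 1), (1 : ℝ) / a := by
    have h1 := log_add_one_le_harmonic (P - 1)
    rw [Nat.sub_add_cancel (by omega), harmonic_eq_sum_Icc] at h1
    push_cast at h1
    have h2 : Icc 1 (P - 1) = Ioc 0 (P - 1) := by ext x; simp only [mem_Icc, mem_Ioc]; omega
    rw [h2] at h1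
    simpa [one_div] using h1
  have hC : ∑ n ∈ Ioc 0 (P * X), (1 : ℝ) / n ≤ 1 + Real.log (P * X) := by
    have h1 := harmonic_le_one_add_log (P * X)
    rw [harmonic_eq_sum_Icc] at h1
    push_cast at h1
    have h2 : Icc 1 (P * X) = Ioc 0 (P * X) := by ext x; simp only [mem_Icc, mem_Ioc]; omega
    rw [h2] at h1
    simpa [one_div] using h1
  have hBn : 0 ≤ ∑ b ∈ B, (1 : ℝ) / b := sum_nonneg fun _ _ => by positivity
  calc (∑ b ∈ B, (1 : ℝ) / b) * Real.log P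
      ≤ (∑ b ∈ B, (1 : ℝ) / b) * ∑ a ∈ Ioc 0 (P - 1), (1 : ℝ) / a :=
        mul_le_mul_of_nonneg_left hA hBn
    _ = ∑ x ∈ (Ioc 0 (P - 1) ×ˢ B : Finset (ℕ × ℕ)), (1 : ℝ) / (((x.1 * x.2 : ℕ)) : ℝ) := by
        rw [mul_comm, sum_mul_sum, sum_product]
        refine sum_congr rfl fun a _ => sum_congr rfl fun b _ => ?_
        push_cast
        rw [div_mul_div_comm, one_mul]
    _ = ∑ n ∈ (Ioc 0 (P - 1) ×ˢ B : Finset (ℕ × ℕ)).image (fun x : ℕ × ℕ => x.1 * x.2),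
          (1 : ℝ) / (n : ℝ) := by
        rw [sum_image]
        rintro ⟨a, b⟩ hx ⟨a', b'⟩ hx' h
        simp only [hB, coe_product, Set.mem_prod, mem_coe, mem_Ioc, mem_filter] at hx hx'
        simp only at h
        have h1 : a = a' := rough_mul_inj hx.1.1 (by omega) hx.2.2 hx.2.1.1 hx'.1.1 (by omega)
          hx'.2.2 hx'.2.1.1 h
        subst h1
        have h2 := Nat.eq_of_mul_eq_mul_left hx.1.1 h
        rw [h2]
    _ ≤ ∑ n ∈ Ioc 0 (P * X), (1 : ℝ) / n := by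
        refine sum_le_sum_of_subset_of_nonneg ?_ fun _ _ _ => by positivity
        intro n hn
        rw [mem_image] at hn
        obtain ⟨⟨a, b⟩, hx, rfl⟩ := hn
        simp only [hB, mem_product, mem_Ioc, mem_filter] at hx ⊢
        refine ⟨Nat.mul_pos hx.1.1 hx.2.1.1, Nat.mul_le_mul (by omega) hx.2.1.2⟩
    _ ≤ _ := hC

lemma rough_pow_le {P m : ℕ} (hm : 0 < m) (h : Rough P m) : P ^ m.primeFactors.card ≤ m := by
  calc P ^ m.primeFactors.card = ∏ q ∈ m.primeFactors, P := by rw [prod_const]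
    _ ≤ ∏ q ∈ m.primeFactors, q := prod_le_prod' h
    _ ≤ m := Nat.le_of_dvd hm (Nat.prod_primeFactors_dvd m)

lemma totient_div_ge {a d : ℕ} (ha : 0 < a) (hd : d ∣ a) :
    (a.totient : ℝ) / a ≤ ((a / d : ℕ).totient : ℝ) / ((a / d : ℕ) : ℝ) := by
  have hq : ∀ n : ℕ, 0 < n → (n.totient : ℝ) / n = ∏ p ∈ n.primeFactors, (1 - (p : ℝ)⁻¹) := by
    intro n hn
    have h1 := Nat.totient_eq_mul_prod_factors n
    have h2 : ((n.totient : ℚ) : ℝ) = ((n * ∏ p ∈ n.primeFactors, (1 - (p : ℚ)⁻¹) : ℚ) : ℝ) := by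
      rw [h1]
    push_cast at h2
    rw [h2]
    field_simp
  obtain ⟨c, rfl⟩ := hd
  have hd0 : 0 < d := Nat.pos_of_ne_zero (by rintro rfl; simp at ha)
  have hc0 : 0 < c := Nat.pos_of_ne_zero (by rintro rfl; simp at ha)
  rw [Nat.mul_div_cancel_left _ hd0, hq _ ha, hq _ hc0]
  have hsub : c.primeFactors ⊆ (d * c).primeFactors :=
    Nat.primeFactors_mono (dvd_mul_left _ _) ha.ne'
  rw [← prod_sdiff hsub]
  have h1 : ∀ p ∈ (d * c).primeFactors, (0 : ℝ) ≤ 1 - (p : ℝ)⁻¹ ∧ 1 - (p : ℝ)⁻¹ ≤ 1 := by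
    intro p hp
    have h2 : (1 : ℝ) ≤ p := by exact_mod_cast (Nat.prime_of_mem_primeFactors hp).one_lt.le
    constructor
    · have := inv_le_one_of_one_le₀ h2
      linarith
    · have : (0 : ℝ) ≤ (p : ℝ)⁻¹ := by positivity
      linarith
  have h3 : ∏ p ∈ (d * c).primeFactors \ c.primeFactors, (1 - (p : ℝ)⁻¹) ≤ 1 :=
    prod_le_one (fun p hp => (h1 p (mem_sdiff.1 hp).1).1) fun p hp => (h1 p (mem_sdiff.1 hp).1).2
  have h4 : 0 ≤ ∏ p ∈ c.primeFactors, (1 - (p : ℝ)⁻¹) :=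
    prod_nonneg fun p hp => (h1 p (hsub hp)).1
  nlinarith

end Pool.Agent.H52.Van
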