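import Pool.Agent.H52.Van.Star
import Pool.Agent.H52.Van.NT

/-! The flux inequality on the divisibility graph. -/

namespace Pool.Agent.H52.Van

open Finset ArithmeticFunction

/-- A discrete Picone inequality. -/
lemma picone {S : Finset ℕ} {c : ℕ → ℕ → ℝ} (hc : ∀ a ∈ S, ∀ b ∈ S, 0 ≤ c a b)
    (hs : ∀ a ∈ S, ∀ b ∈ S, c a b = c b a) {y z : ℕ → ℝ} (hy : ∀ a ∈ S, 0 ≤ y a) :
    2 * ∑ a ∈ S, z a ^ 2 / (y a + 1) * (y a * ∑ b ∈ S, c a b - ∑ b ∈ S, c a b * y b)
      ≤ ∑ a ∈ S, ∑ b ∈ S, c a b * (z a - z b) ^ 2 := by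
  have e1 : ∑ a ∈ S, z a ^ 2 / (y a + 1) * (y a * ∑ b ∈ S, c a b - ∑ b ∈ S, c a b * y b)
      = ∑ a ∈ S, ∑ b ∈ S, c a b * (y a - y b) * (z a ^ 2 / (y a + 1)) := by
    refine sum_congr rfl fun a _ => ?_
    rw [mul_sum, ← sum_sub_distrib, mul_sum]
    exact sum_congr rfl fun b _ => by ring
  have e2 : ∑ a ∈ S, ∑ b ∈ S, c a b * (y a - y b) * (z a ^ 2 / (y a + 1))
      = ∑ a ∈ S, ∑ b ∈ S, c a b * (y b - y a) * (z b ^ 2 / (y b + 1)) := by
    rw [sum_comm]
    refine sum_congr rfl fun b hb => sum_congr rfl fun a ha => ?_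
    rw [hs a ha b hb]
  rw [e1, two_mul]
  nth_rewrite 2 [e2]
  rw [← sum_add_distrib]
  refine sum_le_sum fun a ha => ?_
  rw [← sum_add_distrib]
  refine sum_le_sum fun b hb => ?_
  have ha1 : 0 < y a + 1 := by linarith [hy a ha]
  have hb1 : 0 < y b + 1 := by linarith [hy b hb]
  have key : (y a - y b) * (z a ^ 2 / (y a + 1)) + (y b - y a) * (z b ^ 2 / (y b + 1))
      ≤ (z a - z b) ^ 2 := by
    have : (z a - z b) ^ 2 - ((y a - y b) * (z a ^ 2 / (y a + 1))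
        + (y b - y a) * (z b ^ 2 / (y b + 1)))
        = (z a * (y b + 1) - z b * (y a + 1)) ^ 2 / ((y a + 1) * (y b + 1)) := by
      field_simp
      ring
    have h2 : 0 ≤ (z a * (y b + 1) - z b * (y a + 1)) ^ 2 / ((y a + 1) * (y b + 1)) := by positivity
    linarith
  calc c a b * (y a - y b) * (z a ^ 2 / (y a + 1)) + c a b * (y b - y a) * (z b ^ 2 / (y b + 1))
      = c a b * ((y a - y b) * (z a ^ 2 / (y a + 1)) + (y b - y a) * (z b ^ 2 / (y b + 1))) := by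
        ring
    _ ≤ c a b * (z a - z b) ^ 2 := mul_le_mul_of_nonneg_left key (hc a ha b hb)

/-- Sums of `W1 a ·` as sums over cofactors. -/
lemma sum_W1 {X a : ℕ} (ha : 0 < a) (F : ℕ → ℝ) :
    ∑ b ∈ Ioc 0 X, W1 a b * F b = ∑ d ∈ Ioc 0 (X / a), (a.totient : ℝ) * Λ d * F (a * d) := by
  have h1 : ∑ b ∈ Ioc 0 X, W1 a b * F b = ∑ b ∈ (Ioc 0 X).filter (fun b => a ∣ b), W1 a b * F b := by
    refine (sum_filter_of_ne fun b _ hne => ?_).symm
    by_contra hcon
    apply hne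
    unfold W1
    rw [if_neg hcon, zero_mul]
  have h2 : (Ioc 0 X).filter (fun b => a ∣ b) = (Ioc 0 (X / a)).image (fun d => a * d) := by
    ext b
    simp only [mem_filter, mem_Ioc, mem_image]
    constructor
    · rintro ⟨⟨hb0, hbX⟩, d, rfl⟩
      refine ⟨d, ⟨Nat.pos_of_ne_zero ?_, ?_⟩, rfl⟩
      · rintro rfl; simp at hb0
      · rw [Nat.le_div_iff_mul_le ha, mul_comm]; exact hbX
    · rintro ⟨d, ⟨hd0, hdX⟩, rfl⟩
      refine ⟨⟨Nat.mul_pos ha hd0, ?_⟩, dvd_mul_right _ _⟩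
      rw [Nat.le_div_iff_mul_le ha, mul_comm] at hdX; exact hdX
  rw [h1, h2, sum_image]
  · refine sum_congr rfl fun d _ => ?_
    unfold W1
    rw [if_pos (dvd_mul_right _ _), Nat.mul_div_cancel_left _ ha]
  · intro x _ y _ h
    exact Nat.eq_of_mul_eq_mul_left ha h

lemma row_ge {X a : ℕ} (ha : 0 < a) (haX : a ≤ X) :
    (a.totient : ℝ) / (a : ℝ) ^ 2 * (Real.log X - 2)
      ≤ ∑ b ∈ Ioc 0 X, (W1 a b + W1 b a) / ((a : ℝ) * b) := by
  have haR : (0 : ℝ) < a := by exact_mod_cast ha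
  have hX0 : 0 < X := by omega
  have hXR : (0 : ℝ) < X := by exact_mod_cast hX0
  have h0 : ∑ b ∈ Ioc 0 X, (W1 a b + W1 b a) / ((a : ℝ) * b)
      = ∑ b ∈ Ioc 0 X, W1 a b * (1 / ((a : ℝ) * b)) + ∑ b ∈ Ioc 0 X, W1 b a * (1 / ((a : ℝ) * b)) := by
    rw [← sum_add_distrib]
    exact sum_congr rfl fun b _ => by ring
  have h1 : (a.totient : ℝ) / (a : ℝ) ^ 2 * (Real.log X - Real.log a - 2)
      ≤ ∑ b ∈ Ioc 0 X, W1 a b * (1 / ((a : ℝ) * b)) := by
    rw [sum_W1 ha (fun b => 1 / ((a : ℝ) * b))]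
    have h2 : ∑ d ∈ Ioc 0 (X / a), (a.totient : ℝ) * Λ d * (1 / ((a : ℝ) * ((a * d : ℕ) : ℝ)))
        = (a.totient : ℝ) / (a : ℝ) ^ 2 * ∑ d ∈ Ioc 0 (X / a), Λ d / d := by
      rw [mul_sum]
      refine sum_congr rfl fun d hd => ?_
      rw [mem_Ioc] at hd
      have hdR : (0 : ℝ) < d := by exact_mod_cast hd.1
      push_cast
      field_simp
    rw [h2]
    refine mul_le_mul_of_nonneg_left ?_ (by positivity)
    have h3 : 1 ≤ X / a := Nat.div_pos haX ha
    have h4 := sum_vM_div_ge h3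
    have h5 : (X : ℝ) / (2 * a) ≤ ((X / a : ℕ) : ℝ) := by
      rw [div_le_iff₀ (by positivity)]
      have h5 : X < a * (X / a + 1) := Nat.lt_mul_div_succ X ha
      have h7 : X ≤ (X / a) * (2 * a) := by nlinarith
      exact_mod_cast h7
    have h6 := Real.log_le_log (by positivity) h5
    rw [Real.log_div hXR.ne' (by positivity), Real.log_mul (by norm_num) haR.ne'] at h6
    have h8 : Real.log 2 ≤ 1 := by
      have := Real.log_two_lt_d9
      linarith
    linarith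
  have h2 : (a.totient : ℝ) / (a : ℝ) ^ 2 * Real.log a
      ≤ ∑ b ∈ Ioc 0 X, W1 b a * (1 / ((a : ℝ) * b)) := by
    have h3 : ∑ b ∈ a.divisors, W1 b a * (1 / ((a : ℝ) * b))
        ≤ ∑ b ∈ Ioc 0 X, W1 b a * (1 / ((a : ℝ) * b)) := by
      refine sum_le_sum_of_subset_of_nonneg ?_ fun b _ _ =>
        mul_nonneg (W1_nonneg _ _) (by positivity)
      intro b hb
      rw [mem_Ioc]
      exact ⟨Nat.pos_of_mem_divisors hb, (Nat.divisor_le hb).trans haX⟩
    refine le_trans ?_ h3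
    rw [← Nat.sum_div_divisors, ← vonMangoldt_sum, mul_sum]
    refine sum_le_sum fun d hd => ?_
    have hda := Nat.dvd_of_mem_divisors hd
    have hd0 := Nat.pos_of_mem_divisors hd
    have hdR : (0 : ℝ) < d := by exact_mod_cast hd0
    have hc0 : 0 < a / d := Nat.div_pos (Nat.le_of_dvd ha hda) hd0
    have hcR : (0 : ℝ) < ((a / d : ℕ) : ℝ) := by exact_mod_cast hc0
    unfold W1
    rw [if_pos (Nat.div_dvd_of_dvd hda), Nat.div_div_self hda ha.ne']
    have h4 := totient_div_ge ha hda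
    calc (a.totient : ℝ) / (a : ℝ) ^ 2 * Λ d = (a.totient / (a : ℝ)) * (Λ d / a) := by
          field_simp
      _ ≤ (((a / d : ℕ).totient : ℝ) / ((a / d : ℕ) : ℝ)) * (Λ d / a) :=
          mul_le_mul_of_nonneg_right h4 (div_nonneg vonMangoldt_nonneg haR.le)
      _ = ((a / d : ℕ).totient : ℝ) * Λ d * (1 / ((a : ℝ) * ((a / d : ℕ) : ℝ))) := by
          field_simp
  rw [h0]
  have h3 : (a.totient : ℝ) / (a : ℝ) ^ 2 * (Real.log X - 2)
      = (a.totient : ℝ) / (a : ℝ) ^ 2 * (Real.log X - Real.log a - 2)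
        + (a.totient : ℝ) / (a : ℝ) ^ 2 * Real.log a := by ring
  rw [h3]
  exact add_le_add h1 h2

lemma energy_le {X : ℕ} (z : ℕ → ℝ) :
    ∑ a ∈ Ioc 0 X, ∑ b ∈ Ioc 0 X, (W1 a b + W1 b a) / ((a : ℝ) * b) * (z a - z b) ^ 2
      ≤ 2 * ∑ a ∈ Ioc 0 X, ∑ d ∈ Ioc 0 X, (1 / (a : ℝ)) * (Λ d / d) * (z a - z (a * d)) ^ 2 := by
  have e1 : ∑ a ∈ Ioc 0 X, ∑ b ∈ Ioc 0 X, (W1 a b + W1 b a) / ((a : ℝ) * b) * (z a - z b) ^ 2
      = 2 * ∑ a ∈ Ioc 0 X, ∑ b ∈ Ioc 0 X, W1 a b * ((1 / ((a : ℝ) * b)) * (z a - z b) ^ 2) := by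
    have e2 : ∑ a ∈ Ioc 0 X, ∑ b ∈ Ioc 0 X, W1 b a * ((1 / ((a : ℝ) * b)) * (z a - z b) ^ 2)
        = ∑ a ∈ Ioc 0 X, ∑ b ∈ Ioc 0 X, W1 a b * ((1 / ((a : ℝ) * b)) * (z a - z b) ^ 2) := by
      rw [sum_comm]
      refine sum_congr rfl fun b _ => sum_congr rfl fun a _ => ?_
      ring
    rw [two_mul]
    nth_rewrite 2 [← e2]
    rw [← sum_add_distrib]
    refine sum_congr rfl fun a _ => ?_
    rw [← sum_add_distrib]
    exact sum_congr rfl fun b _ => by ring
  rw [e1]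
  refine mul_le_mul_of_nonneg_left ?_ (by norm_num)
  refine sum_le_sum fun a ha => ?_
  rw [mem_Ioc] at ha
  have haR : (0 : ℝ) < a := by exact_mod_cast ha.1
  rw [sum_W1 ha.1 (fun b => (1 / ((a : ℝ) * b)) * (z a - z b) ^ 2)]
  calc ∑ d ∈ Ioc 0 (X / a), (a.totient : ℝ) * Λ d
        * ((1 / ((a : ℝ) * ((a * d : ℕ) : ℝ))) * (z a - z (a * d)) ^ 2)
      ≤ ∑ d ∈ Ioc 0 (X / a), (1 / (a : ℝ)) * (Λ d / d) * (z a - z (a * d)) ^ 2 := by
        refine sum_le_sum fun d hd => ?_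
        rw [mem_Ioc] at hd
        have hdR : (0 : ℝ) < d := by exact_mod_cast hd.1
        have h1 : (a.totient : ℝ) ≤ a := by exact_mod_cast Nat.totient_le a
        have h2 : (a.totient : ℝ) * Λ d
            * ((1 / ((a : ℝ) * ((a * d : ℕ) : ℝ))) * (z a - z (a * d)) ^ 2)
            = (a.totient : ℝ) / a * ((1 / (a : ℝ)) * (Λ d / d) * (z a - z (a * d)) ^ 2) := by
          push_cast
          field_simp
        rw [h2]
        have h3 : (a.totient : ℝ) / a ≤ 1 := (div_le_one haR).2 h1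
        have h4 : 0 ≤ (1 / (a : ℝ)) * (Λ d / d) * (z a - z (a * d)) ^ 2 :=
          mul_nonneg (mul_nonneg (by positivity) (div_nonneg vonMangoldt_nonneg hdR.le))
            (sq_nonneg _)
        nlinarith
    _ ≤ _ := by
        refine sum_le_sum_of_subset_of_nonneg ?_ fun d _ _ =>
          mul_nonneg (mul_nonneg (by positivity) (div_nonneg vonMangoldt_nonneg
            (Nat.cast_nonneg _))) (sq_nonneg _)
        intro d hd
        rw [mem_Ioc] at hd ⊢
        exact ⟨hd.1, hd.2.trans (Nat.div_le_self _ _)⟩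

lemma log_choose_le {N j : ℕ} (hj : 0 < j) (hc : 0 < N.choose j) :
    Real.log (N.choose j) ≤ j * (1 + Real.log N - Real.log j) := by
  have hjR : (0 : ℝ) < j := by exact_mod_cast hj
  have hN : 0 < N := by
    rcases Nat.eq_zero_or_pos N with rfl | h
    · obtain ⟨i, rfl⟩ : ∃ i, j = i + 1 := ⟨j - 1, by omega⟩
      simp at hc
    · exact h
  have hNR : (0 : ℝ) < N := by exact_mod_cast hN
  have h1 : (N.choose j : ℝ) ≤ (N : ℝ) ^ j / (j.factorial : ℝ) := Nat.choose_le_pow_div j N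
  have h2 := Real.pow_div_factorial_le_exp (x := (j : ℝ)) hjR.le j
  have h3 : (N : ℝ) ^ j / (j.factorial : ℝ) ≤ (N : ℝ) ^ j * Real.exp j / (j : ℝ) ^ j := by
    rw [div_le_div_iff₀ (by positivity) (by positivity)]
    rw [div_le_iff₀ (by positivity)] at h2
    have : 0 < (N : ℝ) ^ j := by positivity
    nlinarith
  have h4 := Real.log_le_log (by exact_mod_cast hc) (h1.trans h3)
  rw [Real.log_div (by positivity) (by positivity), Real.log_mul (by positivity) (by positivity),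
    Real.log_exp, Real.log_pow, Real.log_pow] at h4
  nlinarith

/-- The pointwise inequality used at the vertices `a ≠ 1`. -/
lemma pointwise {N X t a E : ℕ} {A ω Lc : ℝ} (ha : 0 < a) (haX : a ≤ X) (ht : 0 < t)
    (hc : 0 < N.choose (E + 1)) (hLc : Lc = Real.log (N.choose (E + 1)))
    (hXt : (X : ℝ) * (1 + Real.log N) ≤ t) (hNt : t * X ≤ N)
    (hA : 3 + Real.log N - Real.log t - Real.log X + ω ≤ A) (hω : 0 ≤ ω) :
    (a : ℝ) * (Lc - E * (Real.log X - 2 + Real.log a - ω)) ≤ A * (a * E + t) := by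
  have haR : (0 : ℝ) < a := by exact_mod_cast ha
  have htR : (0 : ℝ) < t := by exact_mod_cast ht
  have hX0 : 0 < X := by omega
  have hXR : (0 : ℝ) < X := by exact_mod_cast hX0
  have hE : (0 : ℝ) < (E : ℝ) + 1 := by positivity
  have hN0 : 0 < N := lt_of_lt_of_le (Nat.mul_pos ht hX0) hNt
  have hNR : (1 : ℝ) ≤ N := by exact_mod_cast hN0
  have hlN : 0 ≤ Real.log N := Real.log_nonneg hNR
  have h1 := log_choose_le (Nat.succ_pos E) hc
  rw [← hLc] at h1
  push_cast at h1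
  have hlaX : Real.log a ≤ Real.log X := Real.log_le_log haR (by exact_mod_cast haX)
  have hXt' : (X : ℝ) ≤ t := by nlinarith
  have hlXt : Real.log X ≤ Real.log t := Real.log_le_log hXR hXt'
  have hlNt : Real.log t + Real.log X ≤ Real.log N := by
    rw [← Real.log_mul htR.ne' hXR.ne']
    exact Real.log_le_log (by positivity) (by exact_mod_cast hNt)
  -- u = a (E+1) / t
  have hu : 0 < (a : ℝ) * (E + 1) / t := by positivity
  have h2 : -(((a : ℝ) * (E + 1) / t) * Real.log ((a : ℝ) * (E + 1) / t)) ≤ 1 := by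
    have h3 := Real.log_le_sub_one_of_pos (inv_pos.2 hu)
    rw [Real.log_inv] at h3
    have h4 := mul_le_mul_of_nonneg_left h3 hu.le
    rw [mul_sub, mul_inv_cancel₀ hu.ne'] at h4
    nlinarith
  rw [Real.log_div (by positivity) htR.ne', Real.log_mul haR.ne' hE.ne'] at h2
  have h5 : -((a : ℝ) * (E + 1) * (Real.log a + Real.log (E + 1) - Real.log t)) ≤ t := by
    have h6 := mul_le_mul_of_nonneg_right h2 htR.le
    have h7 : -(((a : ℝ) * (E + 1) / t) * (Real.log a + Real.log (E + 1) - Real.log t)) * t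
        = -((a : ℝ) * (E + 1) * (Real.log a + Real.log (E + 1) - Real.log t)) := by
      field_simp
    rw [h7, one_mul] at h6
    exact h6
  have h8 : (a : ℝ) * Lc ≤ (a : ℝ) * ((E + 1) * (1 + Real.log N - Real.log (E + 1))) :=
    mul_le_mul_of_nonneg_left h1 haR.le
  have h9 : (a : ℝ) * (1 + Real.log N - Real.log t + Real.log a) ≤ t := by
    have h10 : (a : ℝ) * (1 + Real.log N - Real.log t + Real.log a)
        ≤ (a : ℝ) * (1 + Real.log N) := mul_le_mul_of_nonneg_left (by linarith) haR.le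
    have h11 : (a : ℝ) * (1 + Real.log N) ≤ X * (1 + Real.log N) :=
      mul_le_mul_of_nonneg_right (by exact_mod_cast haX) (by linarith)
    linarith
  have h12 : (a : ℝ) * Lc ≤ (a : ℝ) * E * (1 + Real.log N - Real.log t + Real.log a) + 2 * t := by
    nlinarith
  have h13 : (a : ℝ) * (Lc - E * (Real.log X - 2 + Real.log a - ω))
      ≤ (a : ℝ) * E * (3 + Real.log N - Real.log t - Real.log X + ω) + 2 * t := by
    nlinarith
  have h14 : (a : ℝ) * E * (3 + Real.log N - Real.log t - Real.log X + ω)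
      ≤ (a : ℝ) * E * A := mul_le_mul_of_nonneg_left hA (by positivity)
  have h15 : 2 ≤ A := by linarith
  nlinarith

end Pool.Agent.H52.Van
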