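import Pool.Agent.H52.Van.Flux

/-! The test function and the gap lemma. -/

namespace Pool.Agent.H52.Van

open Finset ArithmeticFunction

/-- Thresholds. -/
def Pt (J i : ℕ) : ℕ := 2 ^ (2 ^ (J - i))

open Classical in
/-- Indicator of the rough numbers. -/
noncomputable def rr (J i a : ℕ) : ℝ := if Rough (Pt J i) a then 1 else 0

/-- The test function. -/
noncomputable def zz (J T a : ℕ) : ℝ := (1 / (T : ℝ)) * ∑ i ∈ Ioc 0 T, rr J i a

lemma two_le_Pt (J i : ℕ) : 2 ≤ Pt J i := by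
  unfold Pt
  have h : 1 ≤ 2 ^ (J - i) := Nat.one_le_two_pow
  calc 2 = 2 ^ 1 := by norm_num
    _ ≤ 2 ^ (2 ^ (J - i)) := Nat.pow_le_pow_right (by norm_num) h

lemma log_Pt (J i : ℕ) : Real.log (Pt J i) = 2 ^ (J - i) * Real.log 2 := by
  unfold Pt
  push_cast
  rw [Real.log_pow]
  push_cast
  ring

lemma rr_nonneg (J i a : ℕ) : 0 ≤ rr J i a := by
  unfold rr; split_ifs <;> norm_num

lemma rr_le_one (J i a : ℕ) : rr J i a ≤ 1 := by
  unfold rr; split_ifs <;> norm_num

lemma rough_mul {P a d : ℕ} (ha : 0 < a) (hd : 0 < d) :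
    Rough P (a * d) ↔ Rough P a ∧ Rough P d := by
  unfold Rough
  rw [Nat.primeFactors_mul ha.ne' hd.ne']
  constructor
  · intro h
    exact ⟨fun q hq => h q (mem_union_left _ hq), fun q hq => h q (mem_union_right _ hq)⟩
  · rintro ⟨h1, h2⟩ q hq
    rcases mem_union.1 hq with hq | hq
    · exact h1 q hq
    · exact h2 q hq

lemma rr_mul (J i : ℕ) {a d : ℕ} (ha : 0 < a) (hd : 0 < d) :
    rr J i (a * d) = rr J i a * rr J i d := by
  unfold rr
  by_cases h1 : Rough (Pt J i) a <;> by_cases h2 : Rough (Pt J i) d <;>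
    simp [rough_mul ha hd, h1, h2]

lemma zz_one {J T : ℕ} (hT : 0 < T) : zz J T 1 = 1 := by
  have hTR : (0 : ℝ) < T := by exact_mod_cast hT
  have h1 : ∀ i ∈ Ioc 0 T, rr J i 1 = 1 := by
    intro i _
    unfold rr
    rw [if_pos]
    intro q hq
    simp at hq
  unfold zz
  rw [sum_congr rfl h1]
  simp
  field_simp

lemma rr_mono {J i T a : ℕ} (hi : i ≤ T) : rr J i a ≤ rr J T a := by
  unfold rr
  split_ifs with h1 h2
  · exact le_rfl
  · exfalso
    apply h2
    intro q hq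
    refine le_trans ?_ (h1 q hq)
    unfold Pt
    exact Nat.pow_le_pow_right (by norm_num) (Nat.pow_le_pow_right (by norm_num) (by omega))
  · norm_num
  · norm_num

lemma zz_nonneg (J T a : ℕ) : 0 ≤ zz J T a :=
  mul_nonneg (by positivity) (sum_nonneg fun i _ => rr_nonneg J i a)

lemma zz_le {J T a : ℕ} (hT : 0 < T) : zz J T a ≤ rr J T a := by
  have hTR : (0 : ℝ) < T := by exact_mod_cast hT
  unfold zz
  have h1 : ∑ i ∈ Ioc 0 T, rr J i a ≤ ∑ i ∈ Ioc 0 T, rr J T a :=
    sum_le_sum fun i hi => rr_mono (mem_Ioc.1 hi).2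
  rw [sum_const, Nat.card_Ioc, Nat.sub_zero, nsmul_eq_mul] at h1
  calc (1 / (T : ℝ)) * ∑ i ∈ Ioc 0 T, rr J i a ≤ (1 / (T : ℝ)) * (T * rr J T a) :=
        mul_le_mul_of_nonneg_left h1 (by positivity)
    _ = rr J T a := by field_simp

lemma zz_sq_le {J T a : ℕ} (hT : 0 < T) : zz J T a ^ 2 ≤ rr J T a := by
  have h1 := zz_le (J := J) (a := a) hT
  have h2 := zz_nonneg J T a
  have h3 := rr_le_one J T a
  nlinarith

lemma rough_of_zz {J T a : ℕ} (hT : 0 < T) (h : zz J T a ≠ 0) : Rough (Pt J T) a := by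
  by_contra hcon
  apply h
  have h1 := zz_le (J := J) (a := a) hT
  have h2 : rr J T a = 0 := by unfold rr; rw [if_neg hcon]
  have h3 := zz_nonneg J T a
  linarith

lemma rsum_le {J i X : ℕ} (hX : 2 ^ (2 ^ J) ≤ X) (hi : i ≤ J) :
    ∑ a ∈ Ioc 0 X, rr J i a * (1 / (a : ℝ)) ≤ 4 * Real.log X / (2 ^ (J - i) * Real.log 2) := by
  classical
  have hPX : Pt J i ≤ X := by
    refine le_trans ?_ hX
    unfold Pt
    exact Nat.pow_le_pow_right (by norm_num) (Nat.pow_le_pow_right (by norm_num) (by omega))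
  have hP2 := two_le_Pt J i
  have hX2 : 2 ≤ X := hP2.trans hPX
  have hXR : (0 : ℝ) < X := by
    have : (2 : ℝ) ≤ X := by exact_mod_cast hX2
    linarith
  have h1 := rough_sum_le (P := Pt J i) (X := X) hP2
  have h2 : ∑ a ∈ Ioc 0 X, rr J i a * (1 / (a : ℝ))
      = ∑ b ∈ (Ioc 0 X).filter (Rough (Pt J i)), (1 : ℝ) / b := by
    rw [sum_filter]
    refine sum_congr rfl fun a _ => ?_
    unfold rr
    split_ifs <;> simp
  rw [h2]
  refine h1.trans ?_
  have hl2 : 0 < Real.log 2 := Real.log_pos (by norm_num)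
  rw [← log_Pt]
  have hlP : 0 < Real.log (Pt J i) := by rw [log_Pt]; positivity
  refine div_le_div_of_nonneg_right ?_ hlP.le
  have hPR : (0 : ℝ) < (Pt J i : ℝ) := by
    have : (2 : ℝ) ≤ (Pt J i : ℝ) := by exact_mod_cast hP2
    linarith
  rw [Real.log_mul hPR.ne' hXR.ne']
  have h3 : Real.log (Pt J i) ≤ Real.log X := Real.log_le_log hPR (by exact_mod_cast hPX)
  have h4 : Real.log 2 ≤ Real.log X := Real.log_le_log (by norm_num) (by exact_mod_cast hX2)
  have h5 := Real.log_two_gt_d9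
  linarith

lemma ssum_le (J j X : ℕ) :
    ∑ d ∈ Ioc 0 X, (1 - rr J j d) * (Λ d / d) ≤ 4 * (2 ^ (J - j) * Real.log 2) := by
  classical
  have h1 := smooth_sum_le (P := Pt J j) (two_le_Pt J j) X
  rw [log_Pt] at h1
  refine le_trans (le_of_eq ?_) h1
  rw [sum_filter]
  refine sum_congr rfl fun a _ => ?_
  unfold rr
  split_ifs <;> simp_all

lemma sq_le {J T a d : ℕ} (ha : 0 < a) (hd : 0 < d) :
    (zz J T a - zz J T (a * d)) ^ 2 ≤ (1 / (T : ℝ)) ^ 2 *
      ∑ i ∈ Ioc 0 T, ∑ j ∈ Ioc 0 T, rr J (min i j) a * (1 - rr J (max i j) d) := by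
  have h1 : zz J T a - zz J T (a * d)
      = (1 / (T : ℝ)) * ∑ i ∈ Ioc 0 T, rr J i a * (1 - rr J i d) := by
    unfold zz
    rw [← mul_sub, ← sum_sub_distrib]
    congr 1
    refine sum_congr rfl fun i _ => ?_
    rw [rr_mul J i ha hd]
    ring
  rw [h1, mul_pow]
  refine mul_le_mul_of_nonneg_left ?_ (by positivity)
  rw [sq, sum_mul_sum]
  refine sum_le_sum fun i _ => sum_le_sum fun j _ => ?_
  have a1 := rr_nonneg J i a
  have a2 := rr_le_one J i a
  have a3 := rr_nonneg J j a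
  have a4 := rr_le_one J j a
  have b1 := rr_nonneg J i d
  have b2 := rr_le_one J i d
  have b3 := rr_nonneg J j d
  have b4 := rr_le_one J j d
  rcases le_total i j with h | h
  · rw [min_eq_left h, max_eq_right h]
    calc rr J i a * (1 - rr J i d) * (rr J j a * (1 - rr J j d))
        = (rr J i a * (1 - rr J j d)) * (rr J j a * (1 - rr J i d)) := by ring
      _ ≤ (rr J i a * (1 - rr J j d)) * 1 := by
          refine mul_le_mul_of_nonneg_left ?_ (mul_nonneg a1 (by linarith))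
          nlinarith
      _ = _ := by ring
  · rw [min_eq_right h, max_eq_left h]
    calc rr J i a * (1 - rr J i d) * (rr J j a * (1 - rr J j d))
        = (rr J j a * (1 - rr J i d)) * (rr J i a * (1 - rr J j d)) := by ring
      _ ≤ (rr J j a * (1 - rr J i d)) * 1 := by
          refine mul_le_mul_of_nonneg_left ?_ (mul_nonneg a3 (by linarith))
          nlinarith
      _ = _ := by ring

lemma half_range (n : ℕ) : ∑ s ∈ range n, ((1 : ℝ) / 2) ^ s ≤ 2 := by
  have h : ∑ s ∈ range n, ((1 : ℝ) / 2) ^ s = 2 * (1 - (1 / 2) ^ n) := by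
    induction n with
    | zero => simp
    | succ n ih => rw [sum_range_succ, ih, pow_succ]; ring
  rw [h]
  have : (0 : ℝ) ≤ (1 / 2) ^ n := by positivity
  linarith

lemma half_sum (T : ℕ) :
    ∑ i ∈ Ioc 0 T, ∑ j ∈ Ioc 0 T, ((1 : ℝ) / 2) ^ (max i j - min i j) ≤ 4 * T := by
  have h1 : ∀ i ∈ Ioc 0 T, ∑ j ∈ Ioc 0 T, ((1 : ℝ) / 2) ^ (max i j - min i j) ≤ 4 := by
    intro i _
    have h2 : ∑ j ∈ Ioc 0 T, ((1 : ℝ) / 2) ^ (max i j - min i j)
        = ∑ j ∈ (Ioc 0 T).filter (fun j => i ≤ j), ((1 : ℝ) / 2) ^ (j - i)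
          + ∑ j ∈ (Ioc 0 T).filter (fun j => ¬ i ≤ j), ((1 : ℝ) / 2) ^ (i - j) := by
      rw [← sum_filter_add_sum_filter_not (Ioc 0 T) (fun j => i ≤ j)]
      congr 1
      · refine sum_congr rfl fun j hj => ?_
        have := (mem_filter.1 hj).2
        rw [max_eq_right this, min_eq_left this]
      · refine sum_congr rfl fun j hj => ?_
        have := (mem_filter.1 hj).2
        rw [max_eq_left (by omega), min_eq_right (by omega)]
    have h3 : ∑ j ∈ (Ioc 0 T).filter (fun j => i ≤ j), ((1 : ℝ) / 2) ^ (j - i) ≤ 2 := by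
      rw [← sum_image (s := (Ioc 0 T).filter (fun j => i ≤ j)) (g := fun j => j - i)
        (f := fun s => ((1 : ℝ) / 2) ^ s)]
      · refine le_trans (sum_le_sum_of_subset_of_nonneg (t := range (T + 1)) ?_
          fun _ _ _ => by positivity) (half_range _)
        intro s hs
        simp only [mem_image, mem_filter, mem_Ioc] at hs
        obtain ⟨j, hj, rfl⟩ := hs
        rw [mem_range]; omega
      · intro x hx y hy hxy
        simp only [coe_filter, mem_Ioc, Set.mem_ofPred_eq] at hx hy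
        simp only at hxy
        omega
    have h4 : ∑ j ∈ (Ioc 0 T).filter (fun j => ¬ i ≤ j), ((1 : ℝ) / 2) ^ (i - j) ≤ 2 := by
      rw [← sum_image (s := (Ioc 0 T).filter (fun j => ¬ i ≤ j)) (g := fun j => i - j)
        (f := fun s => ((1 : ℝ) / 2) ^ s)]
      · refine le_trans (sum_le_sum_of_subset_of_nonneg (t := range (i + 1)) ?_
          fun _ _ _ => by positivity) (half_range _)
        intro s hs
        simp only [mem_image, mem_filter, mem_Ioc] at hs
        obtain ⟨j, hj, rfl⟩ := hs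
        rw [mem_range]; omega
      · intro x hx y hy hxy
        simp only [coe_filter, mem_Ioc, Set.mem_ofPred_eq] at hx hy
        simp only at hxy
        omega
    rw [h2]
    linarith
  calc ∑ i ∈ Ioc 0 T, ∑ j ∈ Ioc 0 T, ((1 : ℝ) / 2) ^ (max i j - min i j)
      ≤ ∑ i ∈ Ioc 0 T, (4 : ℝ) := sum_le_sum h1
    _ = 4 * T := by rw [sum_const, Nat.card_Ioc, Nat.sub_zero, nsmul_eq_mul]; ring

lemma energy_zz {J T X : ℕ} (hX : 2 ^ (2 ^ J) ≤ X) (hT : 0 < T) (hTJ : T ≤ J) :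
    ∑ a ∈ Ioc 0 X, ∑ d ∈ Ioc 0 X, (1 / (a : ℝ)) * (Λ d / d) * (zz J T a - zz J T (a * d)) ^ 2
      ≤ 64 * Real.log X / T := by
  have hTR : (0 : ℝ) < T := by exact_mod_cast hT
  have hl2 : 0 < Real.log 2 := Real.log_pos (by norm_num)
  have hX1 : 1 ≤ X := le_trans Nat.one_le_two_pow hX
  have hlX : 0 ≤ Real.log X := Real.log_nonneg (by exact_mod_cast hX1)
  calc ∑ a ∈ Ioc 0 X, ∑ d ∈ Ioc 0 X, (1 / (a : ℝ)) * (Λ d / d) * (zz J T a - zz J T (a * d)) ^ 2
      ≤ ∑ a ∈ Ioc 0 X, ∑ d ∈ Ioc 0 X, (1 / (a : ℝ)) * (Λ d / d) * ((1 / (T : ℝ)) ^ 2 *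
          ∑ i ∈ Ioc 0 T, ∑ j ∈ Ioc 0 T, rr J (min i j) a * (1 - rr J (max i j) d)) := by
        refine sum_le_sum fun a ha => sum_le_sum fun d hd => ?_
        exact mul_le_mul_of_nonneg_left (sq_le (mem_Ioc.1 ha).1 (mem_Ioc.1 hd).1)
          (mul_nonneg (by positivity) (div_nonneg vonMangoldt_nonneg (Nat.cast_nonneg _)))
    _ = (1 / (T : ℝ)) ^ 2 * ∑ i ∈ Ioc 0 T, ∑ j ∈ Ioc 0 T,
          (∑ a ∈ Ioc 0 X, rr J (min i j) a * (1 / (a : ℝ)))
            * (∑ d ∈ Ioc 0 X, (1 - rr J (max i j) d) * (Λ d / d)) := by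
        have e1 : ∀ i j : ℕ, (∑ a ∈ Ioc 0 X, rr J (min i j) a * (1 / (a : ℝ)))
            * (∑ d ∈ Ioc 0 X, (1 - rr J (max i j) d) * (Λ d / d))
            = ∑ a ∈ Ioc 0 X, ∑ d ∈ Ioc 0 X, (1 / (a : ℝ)) * (Λ d / d)
              * (rr J (min i j) a * (1 - rr J (max i j) d)) := by
          intro i j
          rw [sum_mul_sum]
          exact sum_congr rfl fun a _ => sum_congr rfl fun d _ => by ring
        have e2 : ∑ i ∈ Ioc 0 T, ∑ j ∈ Ioc 0 T, ∑ a ∈ Ioc 0 X, ∑ d ∈ Ioc 0 X,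
            (1 / (a : ℝ)) * (Λ d / d) * (rr J (min i j) a * (1 - rr J (max i j) d))
            = ∑ a ∈ Ioc 0 X, ∑ d ∈ Ioc 0 X, (1 / (a : ℝ)) * (Λ d / d) *
              ∑ i ∈ Ioc 0 T, ∑ j ∈ Ioc 0 T, (rr J (min i j) a * (1 - rr J (max i j) d)) := by
          have s1 : ∀ i ∈ Ioc 0 T, ∑ j ∈ Ioc 0 T, ∑ a ∈ Ioc 0 X, ∑ d ∈ Ioc 0 X,
              (1 / (a : ℝ)) * (Λ d / d) * (rr J (min i j) a * (1 - rr J (max i j) d))
              = ∑ a ∈ Ioc 0 X, ∑ d ∈ Ioc 0 X, ∑ j ∈ Ioc 0 T,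
              (1 / (a : ℝ)) * (Λ d / d) * (rr J (min i j) a * (1 - rr J (max i j) d)) := by
            intro i _
            rw [sum_comm]
            exact sum_congr rfl fun a _ => sum_comm
          rw [sum_congr rfl s1, sum_comm]
          refine sum_congr rfl fun a _ => ?_
          rw [sum_comm]
          refine sum_congr rfl fun d _ => ?_
          rw [mul_sum]
          exact sum_congr rfl fun i _ => by rw [mul_sum]
        rw [sum_congr rfl fun i _ => sum_congr rfl fun j _ => e1 i j, e2, mul_sum]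
        refine sum_congr rfl fun a _ => ?_
        rw [mul_sum]
        exact sum_congr rfl fun d _ => by ring
    _ ≤ (1 / (T : ℝ)) ^ 2 * ∑ i ∈ Ioc 0 T, ∑ j ∈ Ioc 0 T,
          (16 * Real.log X) * ((1 : ℝ) / 2) ^ (max i j - min i j) := by
        refine mul_le_mul_of_nonneg_left ?_ (by positivity)
        refine sum_le_sum fun i hi => sum_le_sum fun j hj => ?_
        rw [mem_Ioc] at hi hj
        have h1 := rsum_le (i := min i j) hX (by omega)
        have h2 := ssum_le J (max i j) X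
        have h3 : 0 ≤ ∑ d ∈ Ioc 0 X, (1 - rr J (max i j) d) * (Λ d / d) :=
          sum_nonneg fun d _ => mul_nonneg (by linarith [rr_le_one J (max i j) d])
            (div_nonneg vonMangoldt_nonneg (Nat.cast_nonneg _))
        refine (mul_le_mul h1 h2 h3 (by positivity)).trans (le_of_eq ?_)
        have h4 : (2 : ℝ) ^ (J - min i j) = 2 ^ (J - max i j) * 2 ^ (max i j - min i j) := by
          rw [← pow_add]; congr 1; omega
        rw [h4, one_div, inv_pow]
        field_simp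
        ring
    _ = (1 / (T : ℝ)) ^ 2 * ((16 * Real.log X) *
          ∑ i ∈ Ioc 0 T, ∑ j ∈ Ioc 0 T, ((1 : ℝ) / 2) ^ (max i j - min i j)) := by
        congr 1
        rw [mul_sum]
        exact sum_congr rfl fun i _ => by rw [mul_sum]
    _ ≤ (1 / (T : ℝ)) ^ 2 * ((16 * Real.log X) * (4 * T)) := by
        refine mul_le_mul_of_nonneg_left ?_ (by positivity)
        exact mul_le_mul_of_nonneg_left (half_sum T) (by positivity)
    _ = 64 * Real.log X / T := by
        field_simp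
        ring


lemma card_primeFactors_le {J T M a : ℕ} (ha : 0 < a) (haM : a ≤ M) (hM' : M < 2 ^ (2 ^ (J + 1)))
    (hTJ : T ≤ J) (hr : Rough (Pt J T) a) :
    (a.primeFactors.card : ℝ) * Real.log 2 ≤ 2 ^ (T + 1) := by
  have h1 := rough_pow_le ha hr
  unfold Pt at h1
  rw [← pow_mul] at h1
  have h2 : 2 ^ (2 ^ (J - T) * a.primeFactors.card) < 2 ^ (2 ^ (J + 1)) :=
    lt_of_le_of_lt (h1.trans haM) hM'
  have h3 := (Nat.pow_lt_pow_iff_right (by norm_num)).1 h2
  have h4 : 2 ^ (J + 1) = 2 ^ (J - T) * 2 ^ (T + 1) := by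
    rw [← pow_add]; congr 1; omega
  rw [h4] at h3
  have h5 := Nat.lt_of_mul_lt_mul_left h3
  have h6 : (a.primeFactors.card : ℝ) ≤ 2 ^ (T + 1) := by exact_mod_cast h5.le
  have h7 : Real.log 2 ≤ 1 := by
    have := Real.log_two_lt_d9
    linarith
  have h8 : (0 : ℝ) ≤ (a.primeFactors.card : ℝ) := Nat.cast_nonneg _
  have h9 : 0 ≤ Real.log 2 := Real.log_nonneg (by norm_num)
  nlinarith

open Polynomial in
/-- The gap lemma: the first nonvanishing Hasse derivative at `1` of a polynomial with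
coefficients in `{-1, 0, 1}` is large. -/
theorem gap {N M t J T : ℕ} {f : ℤ[X]} (hdeg : f.natDegree < N) (hc : ∀ i, |f.coeff i| ≤ 1)
    (h0 : ∀ s < t, (hasseDeriv s f).eval 1 = 0) (ht : (hasseDeriv t f).eval 1 ≠ 0)
    (ht0 : 0 < t) (hM : 2 ^ (2 ^ J) ≤ M) (hM' : M < 2 ^ (2 ^ (J + 1))) (hT : 0 < T) (hTJ : T ≤ J)
    (hMt : (M : ℝ) * (1 + Real.log N) ≤ t) (hNt : t * M ≤ N) :
    (t : ℝ) * (Real.log M - 2 - 128 * Real.log M / T
      - 16 * 2 ^ T * (3 + Real.log N - Real.log t - Real.log M + 2 ^ (T + 1)))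
      ≤ Real.log |(((hasseDeriv t f).eval 1 : ℤ) : ℝ)| := by
  classical
  have hf : f ≠ 0 := by
    rintro rfl
    simp at ht
  set S := Ioc 0 M with hSdef
  have hS : ∀ m ∈ S, 0 < m := fun m hm => (mem_Ioc.1 hm).1
  have hM1 : 1 ≤ M := le_trans Nat.one_le_two_pow hM
  have h1S : 1 ∈ S := mem_Ioc.2 ⟨one_pos, hM1⟩
  have htR : (0 : ℝ) < t := by exact_mod_cast ht0
  have hMR : (0 : ℝ) < M := by exact_mod_cast hM1
  have hN0 : 0 < N := lt_of_lt_of_le (Nat.mul_pos ht0 hM1) hNt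
  have hNR : (1 : ℝ) ≤ N := by exact_mod_cast hN0
  have hlN : 0 ≤ Real.log N := Real.log_nonneg hNR
  have hl2 : 0 < Real.log 2 := Real.log_pos (by norm_num)
  obtain ⟨e, h, hfe, hnd⟩ := exists_factor S hS f hf
  obtain ⟨he1, hval⟩ := at_one hS h1S hfe hnd h0 ht
  set V := Real.log |(((hasseDeriv t f).eval 1 : ℤ) : ℝ)| with hV
  set A : ℝ := 3 + Real.log N - Real.log t - Real.log M + 2 ^ (T + 1) with hA
  have hlNt : Real.log t + Real.log M ≤ Real.log N := by
    rw [← Real.log_mul htR.ne' hMR.ne']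
    exact Real.log_le_log (by positivity) (by exact_mod_cast hNt)
  have hA0 : 0 ≤ A := by
    have : (0 : ℝ) ≤ 2 ^ (T + 1) := by positivity
    rw [hA]; linarith
  set c : ℕ → ℕ → ℝ := fun a b => (W1 a b + W1 b a) / ((a : ℝ) * b) with hcdef
  set y : ℕ → ℝ := fun a => (a : ℝ) * e a / t with hy
  set z : ℕ → ℝ := zz J T with hz
  have hcn : ∀ a ∈ S, ∀ b ∈ S, 0 ≤ c a b := fun a _ b _ =>
    div_nonneg (add_nonneg (W1_nonneg _ _) (W1_nonneg _ _)) (by positivity)
  have hcs : ∀ a ∈ S, ∀ b ∈ S, c a b = c b a := by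
    intro a _ b _
    simp only [hcdef]
    rw [add_comm, mul_comm]
  have hyn : ∀ a ∈ S, 0 ≤ y a := fun a _ => by simp only [hy]; positivity
  have hpic := picone hcn hcs (z := z) hyn
  have hen : ∑ a ∈ S, ∑ b ∈ S, c a b * (z a - z b) ^ 2 ≤ 2 * (64 * Real.log M / T) :=
    (energy_le (X := M) z).trans (mul_le_mul_of_nonneg_left (energy_zz hM hT hTJ) (by norm_num))
  -- the interaction sums
  have hU : ∀ a ∈ S, ∑ b ∈ S, c a b * y b ≤ (1 / ((a : ℝ) * t)) *
      ∑ n ∈ S.erase a, (e n : ℝ) * Real.log (nrm a (cyclotomic n ℤ)) := by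
    intro a ha
    have haR : (0 : ℝ) < a := by exact_mod_cast hS a ha
    rw [← Finset.add_sum_erase S _ ha]
    have h1 : c a a * y a = 0 := by
      simp only [hcdef, W1_self]; simp
    rw [h1, zero_add, mul_sum]
    refine sum_le_sum fun b hb => ?_
    rw [mem_erase] at hb
    have hbR : (0 : ℝ) < b := by exact_mod_cast hS b hb.2
    have h2 := W_le (hS a ha) (hS b hb.2) (Ne.symm hb.1)
    calc c a b * y b = (1 / ((a : ℝ) * t)) * ((e b : ℝ) * (W1 a b + W1 b a)) := by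
          simp only [hcdef, hy]
          field_simp
      _ ≤ _ := by
          refine mul_le_mul_of_nonneg_left ?_ (by positivity)
          exact mul_le_mul_of_nonneg_left h2 (Nat.cast_nonneg _)
  have hrow : ∀ a ∈ S, (a.totient : ℝ) / (a : ℝ) ^ 2 * (Real.log M - 2) ≤ ∑ b ∈ S, c a b :=
    fun a ha => row_ge (hS a ha) (mem_Ioc.1 ha).2
  -- vertices different from 1
  have hvert : ∀ a ∈ S.erase 1, -(A * (rr J T a * (1 / (a : ℝ)))) ≤
      z a ^ 2 / (y a + 1) * (y a * ∑ b ∈ S, c a b - ∑ b ∈ S, c a b * y b) := by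
    intro a ha'
    have ha := (mem_erase.1 ha').2
    have haM := (mem_Ioc.1 ha).2
    have ha0 := hS a ha
    have haR : (0 : ℝ) < a := by exact_mod_cast ha0
    by_cases hza : z a = 0
    · rw [hza]
      have : 0 ≤ A * (rr J T a * (1 / (a : ℝ))) :=
        mul_nonneg hA0 (mul_nonneg (rr_nonneg _ _ _) (by positivity))
      simpa using this
    · have hr := rough_of_zz hT hza
      obtain ⟨hst, hch⟩ := star hdeg hc hS hfe hnd ha
      have hω := card_primeFactors_le ha0 haM hM' hTJ hr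
      have hpw := pointwise (E := e a) (A := A) (ω := a.primeFactors.card * Real.log 2)
        (Lc := Real.log (N.choose (e a + 1))) ha0 haM ht0 hch rfl hMt hNt
        (by rw [hA]; linarith) (by positivity)
      have h1 := hU a ha
      have h2 := hrow a ha
      have hyn' := hyn a ha
      have hy1 : 0 < y a + 1 := by linarith
      have h3 := mul_le_mul_of_nonneg_left h2 hyn'
      set φ : ℝ := (a.totient : ℝ) with hφ
      have hφ0 : 0 ≤ φ := Nat.cast_nonneg _
      set Lc := Real.log (N.choose (e a + 1)) with hLc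
      set om : ℝ := a.primeFactors.card * Real.log 2 with hom
      have h4 : (1 / ((a : ℝ) * t)) * ∑ n ∈ S.erase a, (e n : ℝ) * Real.log (nrm a (cyclotomic n ℤ))
          ≤ (1 / ((a : ℝ) * t)) * (φ * Lc - e a * (φ * Real.log a - φ * om)) :=
        mul_le_mul_of_nonneg_left (by linarith) (by positivity)
      have h5 : y a * (φ / (a : ℝ) ^ 2 * (Real.log M - 2))
          - (1 / ((a : ℝ) * t)) * (φ * Lc - e a * (φ * Real.log a - φ * om))
          = -(φ / ((a : ℝ) ^ 2 * t) * ((a : ℝ) * (Lc - e a * (Real.log M - 2 + Real.log a - om)))) := by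
        simp only [hy]
        field_simp
        ring
      have h6 : φ / ((a : ℝ) ^ 2 * t) * ((a : ℝ) * (Lc - e a * (Real.log M - 2 + Real.log a - om)))
          ≤ φ / ((a : ℝ) ^ 2 * t) * (A * (a * e a + t)) :=
        mul_le_mul_of_nonneg_left hpw (by positivity)
      have h7 : φ / ((a : ℝ) ^ 2 * t) * (A * (a * e a + t)) = φ / (a : ℝ) ^ 2 * A * (y a + 1) := by
        simp only [hy]
        field_simp
      have h8 : -(φ / (a : ℝ) ^ 2 * A * (y a + 1)) ≤
          y a * ∑ b ∈ S, c a b - ∑ b ∈ S, c a b * y b := by linarith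
      have hG : 0 ≤ z a ^ 2 / (y a + 1) := by positivity
      have h9 := mul_le_mul_of_nonneg_left h8 hG
      have h10 : z a ^ 2 / (y a + 1) * -(φ / (a : ℝ) ^ 2 * A * (y a + 1))
          = -(A * (z a ^ 2 * (φ / (a : ℝ) ^ 2))) := by
        field_simp
      rw [h10] at h9
      refine le_trans ?_ h9
      apply neg_le_neg
      refine mul_le_mul_of_nonneg_left ?_ hA0
      have h11 : z a ^ 2 ≤ rr J T a := zz_sq_le hT
      have h12 : φ / (a : ℝ) ^ 2 ≤ 1 / (a : ℝ) := by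
        rw [div_le_div_iff₀ (by positivity) haR]
        have h13 : φ ≤ a := by rw [hφ]; exact_mod_cast Nat.totient_le a
        rw [one_mul, sq]
        exact mul_le_mul_of_nonneg_right h13 haR.le
      exact mul_le_mul h11 h12 (by positivity) (rr_nonneg _ _ _)
  have hmass : ∑ a ∈ S.erase 1, rr J T a * (1 / (a : ℝ)) ≤ 8 * 2 ^ T := by
    have h1 : ∑ a ∈ S.erase 1, rr J T a * (1 / (a : ℝ)) ≤ ∑ a ∈ S, rr J T a * (1 / (a : ℝ)) :=
      sum_le_sum_of_subset_of_nonneg (erase_subset _ _) fun a _ _ =>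
        mul_nonneg (rr_nonneg _ _ _) (by positivity)
    refine h1.trans ((rsum_le hM hTJ).trans ?_)
    rw [div_le_iff₀ (by positivity)]
    have h2 : Real.log M ≤ 2 ^ (J + 1) * Real.log 2 := by
      have h3 : (M : ℝ) ≤ 2 ^ (2 ^ (J + 1)) := by exact_mod_cast hM'.le
      have h4 := Real.log_le_log hMR h3
      rw [Real.log_pow] at h4
      exact_mod_cast h4
    have h5 : (2 : ℝ) ^ (J + 1) = 2 * (2 ^ (J - T) * 2 ^ T) := by
      rw [← pow_add, pow_succ]
      have : J - T + T = J := by omega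
      rw [this]; ring
    rw [h5] at h2
    calc 4 * Real.log M ≤ 4 * (2 * (2 ^ (J - T) * 2 ^ T) * Real.log 2) := by linarith
      _ = 8 * 2 ^ T * (2 ^ (J - T) * Real.log 2) := by ring
  -- the vertex 1
  have hy1 : y 1 = 1 := by
    simp only [hy, he1]
    push_cast
    rw [one_mul]
    exact div_self htR.ne'
  have hz1 : z 1 = 1 := zz_one hT
  have hG1 : z 1 ^ 2 / (y 1 + 1) = 1 / 2 := by rw [hz1, hy1]; norm_num
  have hsplit := Finset.add_sum_erase S
    (fun a => z a ^ 2 / (y a + 1) * (y a * ∑ b ∈ S, c a b - ∑ b ∈ S, c a b * y b)) h1S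
  have hrest : -(A * (8 * 2 ^ T)) ≤ ∑ a ∈ S.erase 1,
      z a ^ 2 / (y a + 1) * (y a * ∑ b ∈ S, c a b - ∑ b ∈ S, c a b * y b) := by
    refine le_trans ?_ (sum_le_sum hvert)
    rw [sum_neg_distrib, ← mul_sum]
    exact neg_le_neg (mul_le_mul_of_nonneg_left hmass hA0)
  have hrow1 := hrow 1 h1S
  have hU1 := hU 1 h1S
  simp only [Nat.totient_one, Nat.cast_one, one_pow, div_one, one_mul] at hrow1 hU1
  have hU1' : ∑ b ∈ S, c 1 b * y b ≤ (1 / (t : ℝ)) * V :=
    hU1.trans (mul_le_mul_of_nonneg_left hval (by positivity))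
  rw [hG1, hy1, one_mul] at hsplit
  have hfin : Real.log M - 2 - (1 / (t : ℝ)) * V ≤ 128 * Real.log M / T + 2 * (A * (8 * 2 ^ T)) := by
    have e1 : 2 * (64 * Real.log M / T) = 128 * Real.log M / T := by ring
    rw [e1] at hen
    linarith
  have h14 : (1 / (t : ℝ)) * V * t = V := by field_simp
  have h15 : Real.log M - 2 - 128 * Real.log M / T - 16 * 2 ^ T * A ≤ (1 / (t : ℝ)) * V := by
    linarith
  have h16 := mul_le_mul_of_nonneg_right h15 htR.le
  rw [h14] at h16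
  linarith

end Pool.Agent.H52.Van
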