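import Pool.Agent.H52.Van.Gap

/-! The iterated pigeonhole argument. -/

namespace Pool.Agent.H52.Van

open Finset Polynomial

/-- Binomial moments of a set. -/
def mom (t : ℕ) (A : Finset ℕ) : ℕ := ∑ j ∈ A, j.choose t

/-- Indicator polynomial of a set. -/
noncomputable def pol (A : Finset ℕ) : ℤ[X] := ∑ j ∈ A, X ^ j

lemma coeff_pol (A : Finset ℕ) (i : ℕ) : (pol A).coeff i = if i ∈ A then 1 else 0 := by
  unfold pol
  rw [finset_sum_coeff]
  simp only [coeff_X_pow]
  rw [Finset.sum_ite_eq]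

lemma hasse_pol (A : Finset ℕ) (t : ℕ) : (hasseDeriv t (pol A)).eval 1 = (mom t A : ℤ) := by
  unfold pol mom
  rw [map_sum, eval_finset_sum]
  push_cast
  refine sum_congr rfl fun j _ => ?_
  rw [← monomial_one_right_eq_X_pow, hasseDeriv_monomial, eval_monomial]
  simp

lemma mom_le {N : ℕ} {A : Finset ℕ} (hA : A ⊆ range N) (t : ℕ) : mom t A ≤ N.choose (t + 1) := by
  have h1 : mom t A ≤ ∑ j ∈ range N, j.choose t := sum_le_sum_of_subset hA
  refine h1.trans (le_of_eq ?_)
  clear h1 hA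
  induction N with
  | zero => simp
  | succ N ih => rw [Finset.sum_range_succ, ih, Nat.choose_succ_succ']; ring

lemma abs_coeff_sub (A B : Finset ℕ) (i : ℕ) : |(pol A - pol B).coeff i| ≤ 1 := by
  rw [coeff_sub, coeff_pol, coeff_pol]
  split_ifs <;> simp

lemma natDegree_sub_lt {N : ℕ} (hN : 0 < N) {A B : Finset ℕ} (hA : A ⊆ range N) (hB : B ⊆ range N) :
    (pol A - pol B).natDegree < N := by
  have h : (pol A - pol B).natDegree ≤ N - 1 := by
    rw [natDegree_le_iff_coeff_eq_zero]
    intro i hi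
    rw [coeff_sub, coeff_pol, coeff_pol, if_neg, if_neg, sub_zero]
    · intro h
      have := mem_range.1 (hB h)
      omega
    · intro h
      have := mem_range.1 (hA h)
      omega
  omega

lemma pol_sub_ne_zero {A B : Finset ℕ} (h : A ≠ B) : pol A - pol B ≠ 0 := by
  intro h0
  apply h
  ext i
  have h1 := congrArg (fun f => coeff f i) h0
  simp only [coeff_sub, coeff_pol, coeff_zero] at h1
  by_cases h2 : i ∈ A <;> by_cases h3 : i ∈ B <;> simp_all

lemma dvd_of_mom {A B : Finset ℕ} {k : ℕ} (h : ∀ s < k, mom s A = mom s B) :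
    (X - 1) ^ k ∣ pol A - pol B := by
  have h1 : X ^ k ∣ taylor (1 : ℤ) (pol A - pol B) := by
    rw [X_pow_dvd_iff]
    intro d hd
    rw [taylor_coeff, map_sub, eval_sub, hasse_pol, hasse_pol, h d hd, sub_self]
  obtain ⟨g, hg⟩ := h1
  refine ⟨taylor (-1) g, ?_⟩
  have h2 := congrArg (taylor (-1 : ℤ)) hg
  rw [taylor_taylor, taylor_mul, taylor_pow, taylor_X] at h2
  simpa [sub_eq_add_neg] using h2

lemma count_le {V : Finset ℕ} {C : ℕ} {G : ℝ} (hG : 0 < G) (hV : ∀ v ∈ V, v ≤ C)
    (hgap : ∀ v ∈ V, ∀ w ∈ V, v ≠ w → G ≤ |(v : ℝ) - w|) : (V.card : ℝ) ≤ C / G + 1 := by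
  have h1 : V.card ≤ (range (⌊(C : ℝ) / G⌋₊ + 1)).card := by
    refine card_le_card_of_injOn (fun v => ⌊(v : ℝ) / G⌋₊) ?_ ?_
    · intro v hv
      simp only [coe_range, Set.mem_Iio]
      refine Nat.lt_succ_of_le (Nat.floor_le_floor ?_)
      exact div_le_div_of_nonneg_right (by exact_mod_cast hV v hv) hG.le
    · intro v hv w hw h
      simp only at h
      by_contra hne
      have h2 := hgap v hv w hw hne
      have a1 := Nat.floor_le (show (0 : ℝ) ≤ (v : ℝ) / G by positivity)
      have a2 := Nat.lt_floor_add_one ((v : ℝ) / G)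
      have b1 := Nat.floor_le (show (0 : ℝ) ≤ (w : ℝ) / G by positivity)
      have b2 := Nat.lt_floor_add_one ((w : ℝ) / G)
      rw [h] at a1 a2
      have h3 : |(v : ℝ) / G - w / G| < 1 := by
        rw [abs_lt]
        constructor <;> linarith
      rw [← sub_div, abs_div, abs_of_pos hG, div_lt_one hG] at h3
      linarith
  rw [card_range] at h1
  have h2 : (V.card : ℝ) ≤ ((⌊(C : ℝ) / G⌋₊ + 1 : ℕ) : ℝ) := by exact_mod_cast h1
  push_cast at h2
  have h3 := Nat.floor_le (show (0 : ℝ) ≤ (C : ℝ) / G by positivity)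
  linarith

theorem pigeon {N k : ℕ} (b : ℕ → ℝ) (hb0 : ∀ t, 0 < b t)
    (hb : ∀ t < k, ∀ F : Finset (Finset ℕ), F ⊆ (range N).powerset →
      (∀ A ∈ F, ∀ B ∈ F, ∀ s < t, mom s A = mom s B) → ((F.image (mom t)).card : ℝ) ≤ b t)
    (hprod : ∏ t ∈ range k, b t < 2 ^ N) :
    ∃ A B : Finset ℕ, A ⊆ range N ∧ B ⊆ range N ∧ A ≠ B ∧ ∀ s < k, mom s A = mom s B := by
  classical
  have key : ∀ j ≤ k, ∃ F : Finset (Finset ℕ), F ⊆ (range N).powerset ∧
      (∀ A ∈ F, ∀ B ∈ F, ∀ s < j, mom s A = mom s B) ∧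
      (2 : ℝ) ^ N ≤ F.card * ∏ t ∈ range j, b t := by
    intro j
    induction j with
    | zero =>
      intro _
      refine ⟨(range N).powerset, subset_rfl, fun _ _ _ _ s hs => absurd hs (Nat.not_lt_zero _), ?_⟩
      simp
    | succ j ih =>
      intro hj
      obtain ⟨F, hF, hm, hcard⟩ := ih (by omega)
      have hP : 0 < ∏ t ∈ range j, b t := prod_pos fun t _ => hb0 t
      have hFpos : 0 < F.card := by
        rcases Nat.eq_zero_or_pos F.card with h | h
        · rw [h] at hcard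
          have : (0 : ℝ) < 2 ^ N := by positivity
          push_cast at hcard
          linarith
        · exact h
      have hne : (F.image (mom j)).Nonempty := (card_pos.1 hFpos).image _
      have hcp : (0 : ℝ) < ((F.image (mom j)).card : ℝ) := by exact_mod_cast hne.card_pos
      obtain ⟨v, _, hv⟩ := exists_le_card_fiber_of_nsmul_le_card_of_maps_to
        (s := F) (t := F.image (mom j)) (f := mom j)
        (b := (F.card : ℝ) / ((F.image (mom j)).card : ℝ))
        (fun A hA => mem_image_of_mem _ hA) hne (by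
          rw [nsmul_eq_mul]
          exact le_of_eq (by field_simp))
      refine ⟨F.filter (fun A => mom j A = v), (filter_subset _ _).trans hF, ?_, ?_⟩
      · intro A hA B hB s hs
        rw [mem_filter] at hA hB
        rcases Nat.lt_succ_iff_lt_or_eq.1 hs with h | rfl
        · exact hm A hA.1 B hB.1 s h
        · rw [hA.2, hB.2]
      · have h1 := hb j (by omega) F hF hm
        have h2 : (F.card : ℝ) ≤ ((F.filter (fun A => mom j A = v)).card : ℝ) * b j := by
          rw [div_le_iff₀ hcp] at hv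
          exact hv.trans (mul_le_mul_of_nonneg_left h1 (Nat.cast_nonneg _))
        rw [prod_range_succ]
        calc (2 : ℝ) ^ N ≤ F.card * ∏ t ∈ range j, b t := hcard
          _ ≤ (((F.filter (fun A => mom j A = v)).card : ℝ) * b j) * ∏ t ∈ range j, b t :=
            mul_le_mul_of_nonneg_right h2 hP.le
          _ = _ := by ring
  obtain ⟨F, hF, hm, hcard⟩ := key k le_rfl
  have hP : 0 < ∏ t ∈ range k, b t := prod_pos fun t _ => hb0 t
  have hlt : 1 < F.card := by
    by_contra hcon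
    have h1 : (F.card : ℝ) ≤ 1 := by exact_mod_cast (not_lt.1 hcon)
    have h2 : (F.card : ℝ) * ∏ t ∈ range k, b t ≤ 1 * ∏ t ∈ range k, b t :=
      mul_le_mul_of_nonneg_right h1 hP.le
    linarith
  obtain ⟨A, hA, B, hB, hAB⟩ := one_lt_card.1 hlt
  exact ⟨A, B, mem_powerset.1 (hF hA), mem_powerset.1 (hF hB), hAB, fun s hs => hm A hA B hB s hs⟩

/-- Counting values, trivial version. -/
lemma values_trivial {N : ℕ} {F : Finset (Finset ℕ)} (hF : F ⊆ (range N).powerset) (t : ℕ) :
    ((F.image (mom t)).card : ℝ) ≤ (N.choose (t + 1) : ℝ) + 1 := by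
  have h := count_le (V := F.image (mom t)) (C := N.choose (t + 1)) (G := 1) one_pos
    (by
      intro v hv
      obtain ⟨A, hA, rfl⟩ := mem_image.1 hv
      exact mom_le (mem_powerset.1 (hF hA)) t)
    (by
      intro v _ w _ hne
      have h1 : ((v : ℤ) - w) ≠ 0 := by
        intro h; apply hne; omega
      have h2 := Int.one_le_abs h1
      exact_mod_cast h2)
  simpa using h

/-- Counting values with the gap lemma. -/
lemma values_gap {N M t J T : ℕ} {F : Finset (Finset ℕ)} (hF : F ⊆ (range N).powerset)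
    (hm : ∀ A ∈ F, ∀ B ∈ F, ∀ s < t, mom s A = mom s B)
    (ht0 : 0 < t) (hM : 2 ^ (2 ^ J) ≤ M) (hM' : M < 2 ^ (2 ^ (J + 1))) (hT : 0 < T) (hTJ : T ≤ J)
    (hMt : (M : ℝ) * (1 + Real.log N) ≤ t) (hNt : t * M ≤ N) :
    ((F.image (mom t)).card : ℝ) ≤ (N.choose (t + 1) : ℝ) /
      Real.exp ((t : ℝ) * (Real.log M - 2 - 128 * Real.log M / T
      - 16 * 2 ^ T * (3 + Real.log N - Real.log t - Real.log M + 2 ^ (T + 1)))) + 1 := by
  have hM1 : 1 ≤ M := le_trans Nat.one_le_two_pow hM
  have hN0 : 0 < N := lt_of_lt_of_le (Nat.mul_pos ht0 hM1) hNt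
  refine count_le (V := F.image (mom t)) (C := N.choose (t + 1)) (Real.exp_pos _) ?_ ?_
  · intro v hv
    obtain ⟨A, hA, rfl⟩ := mem_image.1 hv
    exact mom_le (mem_powerset.1 (hF hA)) t
  · intro v hv w hw hne
    obtain ⟨A, hA, rfl⟩ := mem_image.1 hv
    obtain ⟨B, hB, rfl⟩ := mem_image.1 hw
    have hA' := mem_powerset.1 (hF hA)
    have hB' := mem_powerset.1 (hF hB)
    have hval : ∀ s, (hasseDeriv s (pol A - pol B)).eval 1 = (mom s A : ℤ) - mom s B := by
      intro s
      rw [map_sub, eval_sub, hasse_pol, hasse_pol]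
    have hne' : ((mom t A : ℤ) - mom t B) ≠ 0 := by
      intro h; apply hne; omega
    have hg := gap (natDegree_sub_lt hN0 hA' hB') (abs_coeff_sub A B)
      (fun s hs => by rw [hval, hm A hA B hB s hs, sub_self])
      (by rw [hval]; exact hne') ht0 hM hM' hT hTJ hMt hNt
    rw [hval] at hg
    push_cast at hg
    have hpos : 0 < |(mom t A : ℝ) - mom t B| := by
      rw [abs_pos]
      exact_mod_cast hne'
    rw [← Real.le_log_iff_exp_le hpos]
    exact hg

end Pool.Agent.H52.Van
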