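import Pool.Agent.H52.Van.Cyc

/-! The norm inequalities for a polynomial with small coefficients. -/

namespace Pool.Agent.H52.Van

open Polynomial Finset ArithmeticFunction

lemma exists_factor (S : Finset ℕ) (hS : ∀ m ∈ S, 0 < m) (f : ℤ[X]) (hf : f ≠ 0) :
    ∃ (e : ℕ → ℕ) (h : ℤ[X]), f = (∏ m ∈ S, cyclotomic m ℤ ^ e m) * h ∧
      ∀ m ∈ S, ¬ cyclotomic m ℤ ∣ h := by
  classical
  induction S using Finset.induction_on with
  | empty => exact ⟨fun _ => 0, f, by simp, by simp⟩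
  | insert a S ha ih =>
    obtain ⟨e, h, hfe, hnd⟩ := ih fun m hm => hS m (Finset.mem_insert_of_mem hm)
    have hh : h ≠ 0 := by
      rintro rfl
      exact hf (by rw [hfe, mul_zero])
    have ha0 : 0 < a := hS a (Finset.mem_insert_self _ _)
    have hfin : FiniteMultiplicity (cyclotomic a ℤ) h :=
      finiteMultiplicity_of_degree_pos_of_monic (degree_cyclotomic_pos a ℤ ha0)
        (cyclotomic.monic a ℤ) hh
    obtain ⟨c, hc, hcn⟩ := hfin.exists_eq_pow_mul_and_not_dvd
    refine ⟨Function.update e a (multiplicity (cyclotomic a ℤ) h), c, ?_, ?_⟩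
    · rw [Finset.prod_insert ha, Function.update_self]
      have h1 : ∏ m ∈ S, cyclotomic m ℤ ^ Function.update e a (multiplicity (cyclotomic a ℤ) h) m
          = ∏ m ∈ S, cyclotomic m ℤ ^ e m := by
        refine Finset.prod_congr rfl fun m hm => ?_
        rw [Function.update_of_ne]
        rintro rfl
        exact ha hm
      rw [h1, mul_comm (cyclotomic a ℤ ^ _), mul_assoc, ← hc, ← hfe]
    · intro m hm
      rcases Finset.mem_insert.1 hm with rfl | hm
      · exact hcn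
      · intro hd
        apply hnd m hm
        rw [hc]
        exact Dvd.dvd.mul_left hd _

/-- Norm inequality at the primitive `m`-th roots of unity. -/
lemma star {N : ℕ} {f : ℤ[X]} (hdeg : f.natDegree < N) (hc : ∀ i, |f.coeff i| ≤ 1)
    {S : Finset ℕ} (hS : ∀ m ∈ S, 0 < m) {e : ℕ → ℕ} {h : ℤ[X]}
    (hfe : f = (∏ m ∈ S, cyclotomic m ℤ ^ e m) * h) (hnd : ∀ m ∈ S, ¬ cyclotomic m ℤ ∣ h)
    {m : ℕ} (hm : m ∈ S) :
    ∑ n ∈ S.erase m, (e n : ℝ) * Real.log (nrm m (cyclotomic n ℤ))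
      + (e m : ℝ) * ((m.totient : ℝ) * Real.log m
        - (m.totient : ℝ) * (m.primeFactors.card * Real.log 2))
      ≤ (m.totient : ℝ) * Real.log (N.choose (e m + 1)) ∧ 0 < N.choose (e m + 1) := by
  classical
  have hm0 := hS m hm
  set g : ℤ[X] := (∏ n ∈ S.erase m, cyclotomic n ℤ ^ e n) * h with hg
  have hfg : f = cyclotomic m ℤ ^ e m * g := by
    rw [hfe, ← Finset.mul_prod_erase S _ hm, hg]
    ring
  have h1 : nrm m (hasseDeriv (e m) f) = nrm m (derivative (cyclotomic m ℤ)) ^ e m * nrm m g := by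
    rw [← nrm_pow, ← nrm_mul]
    unfold nrm
    refine Finset.prod_congr rfl fun z hz => ?_
    rw [hfg, hasse_cyclotomic hm0 _ _ hz, map_mul (aeval z) (derivative (cyclotomic m ℤ) ^ e m) g,
      map_pow]
  have h2 : nrm m g = (∏ n ∈ S.erase m, nrm m (cyclotomic n ℤ) ^ e n) * nrm m h := by
    rw [hg, nrm_mul, nrm_prod]
    congr 1
    exact Finset.prod_congr rfl fun n _ => nrm_pow _ _ _
  have hpos1 : ∀ n ∈ S.erase m, 1 ≤ nrm m (cyclotomic n ℤ) := by
    intro n hn
    rw [Finset.mem_erase] at hn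
    exact one_le_nrm_cyclotomic hm0 (hS n hn.2) (Ne.symm hn.1)
  have hhpos : 1 ≤ nrm m h := one_le_nrm' hm0 (hnd m hm)
  have h3 : nrm m (hasseDeriv (e m) f) ≤ (N.choose (e m + 1) : ℝ) ^ m.totient := by
    unfold nrm
    rw [← Complex.card_primitiveRoots m, ← Finset.prod_const]
    refine Finset.prod_le_prod (fun _ _ => norm_nonneg _) fun z hz => ?_
    exact hasse_le hdeg hc _ (((mem_primitiveRoots hm0).1 hz).norm'_eq_one hm0.ne')
  have hD := nrm_deriv hm0
  have hR := nrm_proper_le hm0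
  have hmR : (0 : ℝ) < (m : ℝ) := by exact_mod_cast hm0
  have hDR : 0 < nrm m (derivative (cyclotomic m ℤ)) *
      nrm m (∏ d ∈ m.properDivisors, cyclotomic d ℤ) := by
    rw [hD]; positivity
  have hDpos : 0 < nrm m (derivative (cyclotomic m ℤ)) := by
    rcases (nrm_nonneg m (derivative (cyclotomic m ℤ))).lt_or_eq with h | h
    · exact h
    · rw [← h, zero_mul] at hDR; exact absurd hDR (lt_irrefl _)
  have hRpos : 0 < nrm m (∏ d ∈ m.properDivisors, cyclotomic d ℤ) :=
    pos_of_mul_pos_right hDR hDpos.le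
  have hlogD : (m.totient : ℝ) * Real.log m
        - (m.totient : ℝ) * (m.primeFactors.card * Real.log 2)
        ≤ Real.log (nrm m (derivative (cyclotomic m ℤ))) := by
    have h4 := congrArg Real.log hD
    rw [Real.log_mul hDpos.ne' hRpos.ne', Real.log_pow] at h4
    have h5 := Real.log_le_log hRpos hR
    rw [Real.log_pow] at h5
    push_cast at h5
    nlinarith
  have hlog : Real.log (nrm m (hasseDeriv (e m) f))
      = (e m : ℝ) * Real.log (nrm m (derivative (cyclotomic m ℤ)))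
        + (∑ n ∈ S.erase m, (e n : ℝ) * Real.log (nrm m (cyclotomic n ℤ)))
        + Real.log (nrm m h) := by
    rw [h1, h2, Real.log_mul (pow_pos hDpos _).ne', Real.log_mul, Real.log_prod, Real.log_pow]
    · have : ∀ n ∈ S.erase m, Real.log (nrm m (cyclotomic n ℤ) ^ e n)
          = (e n : ℝ) * Real.log (nrm m (cyclotomic n ℤ)) := fun n _ => Real.log_pow _ _
      rw [Finset.sum_congr rfl this]
      ring
    · intro n hn
      exact (pow_pos (lt_of_lt_of_le one_pos (hpos1 n hn)) _).ne'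
    · exact (Finset.prod_pos fun n hn => pow_pos (lt_of_lt_of_le one_pos (hpos1 n hn)) _).ne'
    · exact (lt_of_lt_of_le one_pos hhpos).ne'
    · exact (mul_pos (Finset.prod_pos fun n hn =>
        pow_pos (lt_of_lt_of_le one_pos (hpos1 n hn)) _) (lt_of_lt_of_le one_pos hhpos)).ne'
  have hHpos : 0 < nrm m (hasseDeriv (e m) f) := by
    rw [h1, h2]
    exact mul_pos (pow_pos hDpos _) (mul_pos (Finset.prod_pos fun n hn =>
        pow_pos (lt_of_lt_of_le one_pos (hpos1 n hn)) _) (lt_of_lt_of_le one_pos hhpos))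
  have h6 := Real.log_le_log hHpos h3
  rw [hlog, Real.log_pow] at h6
  have h7 := Real.log_nonneg hhpos
  have h8 := mul_le_mul_of_nonneg_left hlogD (Nat.cast_nonneg (α := ℝ) (e m))
  refine ⟨by linarith, ?_⟩
  by_contra hcon
  have h9 : N.choose (e m + 1) = 0 := by omega
  rw [h9, Nat.cast_zero, zero_pow (Nat.totient_pos.2 hm0).ne'] at h3
  linarith

/-- The value of the first nonvanishing Hasse derivative at `1`. -/
lemma at_one {f : ℤ[X]} {S : Finset ℕ} (hS : ∀ m ∈ S, 0 < m) (h1S : 1 ∈ S) {e : ℕ → ℕ}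
    {h : ℤ[X]} (hfe : f = (∏ m ∈ S, cyclotomic m ℤ ^ e m) * h)
    (hnd : ∀ m ∈ S, ¬ cyclotomic m ℤ ∣ h) {t : ℕ}
    (h0 : ∀ s < t, (hasseDeriv s f).eval 1 = 0) (ht : (hasseDeriv t f).eval 1 ≠ 0) :
    e 1 = t ∧ ∑ n ∈ S.erase 1, (e n : ℝ) * Real.log (nrm 1 (cyclotomic n ℤ))
      ≤ Real.log |(((hasseDeriv t f).eval 1 : ℤ) : ℝ)| := by
  classical
  set g : ℤ[X] := (∏ n ∈ S.erase 1, cyclotomic n ℤ ^ e n) * h with hg
  have hfg : f = (X - C (1 : ℤ)) ^ e 1 * g := by
    rw [hfe, ← Finset.mul_prod_erase S _ h1S, hg, cyclotomic_one]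
    simp only [map_one]
    ring
  have htay : taylor (1 : ℤ) f = X ^ e 1 * taylor 1 g := by
    rw [hfg, taylor_mul, taylor_pow]
    congr 2
    rw [map_sub, taylor_X, taylor_C]
    ring
  have hpos1 : ∀ n ∈ S.erase 1, 1 ≤ nrm 1 (cyclotomic n ℤ) := by
    intro n hn
    rw [Finset.mem_erase] at hn
    exact one_le_nrm_cyclotomic one_pos (hS n hn.2) (Ne.symm hn.1)
  have hhpos : 1 ≤ nrm 1 h := one_le_nrm' one_pos (hnd 1 h1S)
  have hn1 : nrm 1 g = |((g.eval 1 : ℤ) : ℝ)| := by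
    unfold nrm
    rw [IsPrimitiveRoot.primitiveRoots_one, Finset.prod_singleton]
    have : aeval (1 : ℂ) g = ((g.eval 1 : ℤ) : ℂ) := by
      have := aeval_algebraMap_apply ℂ (1 : ℤ) g
      simpa using this
    rw [this, Complex.norm_intCast]
  have h2 : nrm 1 g = (∏ n ∈ S.erase 1, nrm 1 (cyclotomic n ℤ) ^ e n) * nrm 1 h := by
    rw [hg, nrm_mul, nrm_prod]
    congr 1
    exact Finset.prod_congr rfl fun n _ => nrm_pow _ _ _
  have hgpos : 0 < nrm 1 g := by
    rw [h2]
    exact mul_pos (Finset.prod_pos fun n hn =>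
        pow_pos (lt_of_lt_of_le one_pos (hpos1 n hn)) _) (lt_of_lt_of_le one_pos hhpos)
  have hg1 : g.eval 1 ≠ 0 := by
    intro h3
    rw [hn1, h3] at hgpos
    simp at hgpos
  have hval : (hasseDeriv (e 1) f).eval 1 = g.eval 1 := by
    rw [← taylor_coeff, htay, coeff_X_pow_mul', if_pos le_rfl, Nat.sub_self, taylor_coeff_zero]
  have het : e 1 = t := by
    rcases lt_trichotomy (e 1) t with h4 | h4 | h4
    · exact absurd ((hval.symm.trans (h0 _ h4))) hg1
    · exact h4
    · exfalso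
      apply ht
      rw [← taylor_coeff, htay, coeff_X_pow_mul', if_neg (by omega)]
  refine ⟨het, ?_⟩
  rw [← het, hval, ← hn1, h2, Real.log_mul
    (Finset.prod_pos fun n hn => pow_pos (lt_of_lt_of_le one_pos (hpos1 n hn)) _).ne'
    (lt_of_lt_of_le one_pos hhpos).ne', Real.log_prod]
  · have h5 : ∀ n ∈ S.erase 1, Real.log (nrm 1 (cyclotomic n ℤ) ^ e n)
          = (e n : ℝ) * Real.log (nrm 1 (cyclotomic n ℤ)) := fun n _ => Real.log_pow _ _
    rw [Finset.sum_congr rfl h5]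
    have h7 := Real.log_nonneg hhpos
    linarith
  · intro n hn
    exact (pow_pos (lt_of_lt_of_le one_pos (hpos1 n hn)) _).ne'

/-- One-sided interaction weight. -/
noncomputable def W1 (a b : ℕ) : ℝ := if a ∣ b then (a.totient : ℝ) * Λ (b / a) else 0

lemma W1_nonneg (a b : ℕ) : 0 ≤ W1 a b := by
  unfold W1
  split_ifs
  · exact mul_nonneg (Nat.cast_nonneg _) vonMangoldt_nonneg
  · exact le_rfl

lemma W1_self (a : ℕ) : W1 a a = 0 := by
  unfold W1
  rcases Nat.eq_zero_or_pos a with rfl | ha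
  · simp
  · rw [if_pos dvd_rfl, Nat.div_self ha]
    simp

lemma W1_le {m n : ℕ} (hm : 0 < m) (hn : 0 < n) (hmn : m ≠ n) :
    W1 m n ≤ Real.log (nrm m (cyclotomic n ℤ)) := by
  have h0 := Real.log_nonneg (one_le_nrm_cyclotomic hm hn hmn)
  unfold W1
  split_ifs with hd
  · obtain ⟨d, rfl⟩ := hd
    rw [Nat.mul_div_cancel_left _ hm]
    by_cases hp : IsPrimePow d
    · obtain ⟨q, a, hq, ha, rfl⟩ := (isPrimePow_nat_iff _).1 hp
      rw [vonMangoldt_apply_pow ha.ne', vonMangoldt_apply_prime hq, ← Real.log_pow]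
      exact Real.log_le_log (pow_pos (by exact_mod_cast hq.pos) _) (nrm_ge_of_primepow hm hq ha)
    · rw [vonMangoldt_eq_zero_iff.2 hp, mul_zero]
      exact h0
  · exact h0

lemma W_le {m n : ℕ} (hm : 0 < m) (hn : 0 < n) (hmn : m ≠ n) :
    W1 m n + W1 n m ≤ Real.log (nrm m (cyclotomic n ℤ)) := by
  by_cases hd : m ∣ n
  · have : ¬ n ∣ m := fun h => hmn (Nat.dvd_antisymm hd h)
    have h2 : W1 n m = 0 := by unfold W1; rw [if_neg this]
    rw [h2, add_zero]
    exact W1_le hm hn hmn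
  · have h2 : W1 m n = 0 := by unfold W1; rw [if_neg hd]
    rw [h2, zero_add, nrm_cyclotomic_symm hm hn]
    exact W1_le hn hm (Ne.symm hmn)

end Pool.Agent.H52.Van
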